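import Mathlib
import Pool.Agent.H732R2.MT_B2
import Pool.Agent.H398R2.BV6
import Pool.Agent.H379R2.SWMain
import Pool.Agent.H307R2.Sg6
import Pool.Agent.H378R2.M7m
import Pool.Agent.Helper923.PNTQ

set_option autoImplicit false

/-! ES: primes of a residue class in the intervals `(y, y + y / (log y)^(1/60)]`. -/

open Finset Filter Topology

namespace Pool.Agent.W142.ES

open Pool.Agent.H410R2 (psiLogAP psiLog1 BVAP)

theorem bvap : BVAP :=
  Pool.Agent.H732R2.bvAP (Pool.Agent.H398R2.bvTotal (Pool.Agent.H379R2.SW.siegelWalfisz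
    Pool.Agent.H307R2.siegel))

/-- one modulus -/
theorem disc (q : ℕ) (hq : 0 < q) (a : ℕ) (ha : a.Coprime q) : ∀ᶠ X : ℝ in atTop,
    |psiLogAP X q a - psiLog1 X / (q.totient : ℝ)| ≤ X / Real.log X := by
  obtain ⟨X0, h⟩ := bvap q hq 1 le_rfl (1 / 4) (by norm_num) 1
  filter_upwards [eventually_ge_atTop X0, eventually_ge_atTop (1 : ℝ)] with X hX hX1
  have h1 := h X hX (fun _ => a)
  rw [pow_one] at h1
  refine le_trans ?_ h1
  have hmem : 1 ∈ (Icc 1 ⌊X ^ ((1 : ℝ) / 2 - 1 / 4)⌋₊).filter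
      (fun n => Squarefree n ∧ a.Coprime (q * n)) := by
    rw [mem_filter, mem_Icc]
    refine ⟨⟨le_rfl, ?_⟩, squarefree_one, by rwa [mul_one]⟩
    apply Nat.le_floor
    rw [Nat.cast_one]
    exact Real.one_le_rpow hX1 (by norm_num)
  have h2 := Finset.single_le_sum (f := fun n : ℕ => (1 : ℝ) ^ n.primeFactors.card *
        |psiLogAP X (q * n) a - psiLog1 X / (Nat.totient (q * n) : ℝ)|)
    (fun n _ => by positivity) hmem
  simp only [one_pow, one_mul, mul_one] at h2
  refine h2.trans (le_of_eq ?_)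
  apply Finset.sum_congr rfl
  intro n _
  rw [one_pow, one_mul]

theorem psiLogAP_max (X : ℝ) (hX : 0 < X) (M : ℕ) (hM : ⌊X⌋₊ ≤ M) (q a : ℕ) : psiLogAP X q a =
    ∑ n ∈ (Icc 1 M).filter (fun n => n ≡ a [MOD q]),
      ArithmeticFunction.vonMangoldt n * max 0 (Real.log (X / n)) := by
  unfold psiLogAP
  have hsub : (Icc 1 ⌊X⌋₊).filter (fun n => n ≡ a [MOD q]) ⊆ (Icc 1 M).filter (fun n => n ≡ a [MOD q]) :=
    filter_subset_filter _ (Icc_subset_Icc_right hM)
  rw [← sum_subset hsub]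
  · apply sum_congr rfl
    intro n hn
    rw [mem_filter, mem_Icc] at hn
    have hn1 : (1 : ℝ) ≤ n := by exact_mod_cast hn.1.1
    have hnX : (n : ℝ) ≤ X := (Nat.le_floor_iff hX.le).1 hn.1.2
    congr 1
    symm
    apply max_eq_right
    apply Real.log_nonneg
    rw [le_div_iff₀ (by linarith)]
    linarith
  · intro n hn hn2
    rw [mem_filter, mem_Icc] at hn
    have h1 : ⌊X⌋₊ < n := by
      by_contra h
      apply hn2
      rw [mem_filter, mem_Icc]
      exact ⟨⟨hn.1.1, not_lt.1 h⟩, hn.2⟩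
    have h2 : X < n := (Nat.floor_lt hX.le).1 h1
    have h3 : Real.log (X / n) ≤ 0 := by
      apply Real.log_nonpos (by positivity)
      rw [div_le_one (by linarith)]
      exact h2.le
    rw [max_eq_left h3, mul_zero]

theorem psiLog1_max (X : ℝ) (hX : 0 < X) (M : ℕ) (hM : ⌊X⌋₊ ≤ M) : psiLog1 X =
    ∑ n ∈ Icc 1 M, ArithmeticFunction.vonMangoldt n * max 0 (Real.log (X / n)) := by
  have h := psiLogAP_max X hX M hM 1 0
  have e1 : ∀ N : ℕ, (Icc 1 N).filter (fun n => n ≡ 0 [MOD 1]) = Icc 1 N := by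
    intro N
    apply filter_true_of_mem
    intro n _
    exact Nat.modEq_one
  unfold psiLogAP at h
  rw [e1, e1] at h
  unfold psiLog1
  exact h

/-- the hat function -/
theorem hat (u v : ℝ) (hv : 0 ≤ v) :
    0 ≤ max 0 (2 * v - u) - 2 * max 0 (v - u) + max 0 (-u) ∧
    max 0 (2 * v - u) - 2 * max 0 (v - u) + max 0 (-u) ≤ v ∧
    (u ≤ 0 ∨ 2 * v ≤ u → max 0 (2 * v - u) - 2 * max 0 (v - u) + max 0 (-u) = 0) ∧
    (v / 2 ≤ u → u ≤ 3 * v / 2 → v / 2 ≤ max 0 (2 * v - u) - 2 * max 0 (v - u) + max 0 (-u)) := by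
  rcases le_total u 0 with h1 | h1
  · rw [max_eq_right (by linarith : (0 : ℝ) ≤ 2 * v - u), max_eq_right (by linarith : (0 : ℝ) ≤ v - u),
      max_eq_right (by linarith : (0 : ℝ) ≤ -u)]
    refine ⟨by linarith, by linarith, fun _ => by ring, fun h _ => by linarith⟩
  · rw [max_eq_left (by linarith : -u ≤ (0 : ℝ))]
    rcases le_total u v with h2 | h2
    · rw [max_eq_right (by linarith : (0 : ℝ) ≤ 2 * v - u), max_eq_right (by linarith : (0 : ℝ) ≤ v - u)]
      refine ⟨by linarith, by linarith, fun h => ?_, fun h _ => by linarith⟩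
      rcases h with h | h
      · have : u = 0 := le_antisymm h h1
        rw [this]; ring
      · have : u = 0 := by linarith
        have : v = 0 := by linarith
        subst this
        linarith
    · rw [max_eq_left (by linarith : v - u ≤ (0 : ℝ))]
      rcases le_total u (2 * v) with h3 | h3
      · rw [max_eq_right (by linarith : (0 : ℝ) ≤ 2 * v - u)]
        refine ⟨by linarith, by linarith, fun h => ?_, fun _ h => by linarith⟩
        rcases h with h | h <;> linarith
      · rw [max_eq_left (by linarith : 2 * v - u ≤ (0 : ℝ))]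
        refine ⟨by linarith, by linarith, fun _ => by ring, fun _ h => by linarith⟩

/-- the weight of the second difference -/
noncomputable def ww (x v : ℝ) (n : ℕ) : ℝ :=
  max 0 (2 * v - (Real.log n - Real.log x)) - 2 * max 0 (v - (Real.log n - Real.log x)) +
    max 0 (-(Real.log n - Real.log x))

theorem log_shift (x v : ℝ) (hx : 0 < x) (n : ℕ) (hn : 1 ≤ n) (k : ℝ) :
    Real.log (Real.exp (k * v) * x / n) = k * v - (Real.log n - Real.log x) := by
  have hn0 : (0 : ℝ) < n := by exact_mod_cast hn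
  rw [Real.log_div (by positivity) hn0.ne', Real.log_mul (Real.exp_pos _).ne' hx.ne', Real.log_exp]
  ring

/-- second difference in a residue class -/
theorem secdiff (x v : ℝ) (hx : 0 < x) (hv : 0 ≤ v) (M : ℕ) (hM : ⌊Real.exp (2 * v) * x⌋₊ ≤ M) (q a : ℕ) :
    psiLogAP (Real.exp (2 * v) * x) q a - 2 * psiLogAP (Real.exp (1 * v) * x) q a +
      psiLogAP (Real.exp (0 * v) * x) q a =
    ∑ n ∈ (Icc 1 M).filter (fun n => n ≡ a [MOD q]), ArithmeticFunction.vonMangoldt n * ww x v n := by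
  have e1 : ⌊Real.exp (1 * v) * x⌋₊ ≤ M := by
    refine (Nat.floor_le_floor ?_).trans hM
    apply mul_le_mul_of_nonneg_right _ hx.le
    exact Real.exp_le_exp.2 (by linarith)
  have e0 : ⌊Real.exp (0 * v) * x⌋₊ ≤ M := by
    refine (Nat.floor_le_floor ?_).trans hM
    apply mul_le_mul_of_nonneg_right _ hx.le
    exact Real.exp_le_exp.2 (by linarith)
  rw [psiLogAP_max _ (by positivity) M hM, psiLogAP_max _ (by positivity) M e1,
    psiLogAP_max _ (by positivity) M e0, Finset.mul_sum, ← Finset.sum_sub_distrib, ← Finset.sum_add_distrib]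
  apply sum_congr rfl
  intro n hn
  rw [mem_filter, mem_Icc] at hn
  rw [log_shift x v hx n hn.1.1, log_shift x v hx n hn.1.1, log_shift x v hx n hn.1.1]
  unfold ww
  rw [one_mul, zero_mul, zero_sub]
  ring

theorem secdiff1 (x v : ℝ) (hx : 0 < x) (hv : 0 ≤ v) (M : ℕ) (hM : ⌊Real.exp (2 * v) * x⌋₊ ≤ M) :
    psiLog1 (Real.exp (2 * v) * x) - 2 * psiLog1 (Real.exp (1 * v) * x) +
      psiLog1 (Real.exp (0 * v) * x) =
    ∑ n ∈ Icc 1 M, ArithmeticFunction.vonMangoldt n * ww x v n := by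
  have e1 : ⌊Real.exp (1 * v) * x⌋₊ ≤ M := by
    refine (Nat.floor_le_floor ?_).trans hM
    apply mul_le_mul_of_nonneg_right _ hx.le
    exact Real.exp_le_exp.2 (by linarith)
  have e0 : ⌊Real.exp (0 * v) * x⌋₊ ≤ M := by
    refine (Nat.floor_le_floor ?_).trans hM
    apply mul_le_mul_of_nonneg_right _ hx.le
    exact Real.exp_le_exp.2 (by linarith)
  rw [psiLog1_max _ (by positivity) M hM, psiLog1_max _ (by positivity) M e1,
    psiLog1_max _ (by positivity) M e0, Finset.mul_sum, ← Finset.sum_sub_distrib, ← Finset.sum_add_distrib]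
  apply sum_congr rfl
  intro n hn
  rw [mem_Icc] at hn
  rw [log_shift x v hx n hn.1, log_shift x v hx n hn.1, log_shift x v hx n hn.1]
  unfold ww
  rw [one_mul, zero_mul, zero_sub]
  ring

theorem ww_eq (x v : ℝ) (n : ℕ) : ww x v n =
    max 0 (2 * v - (Real.log n - Real.log x)) - 2 * max 0 (v - (Real.log n - Real.log x)) +
    max 0 (-(Real.log n - Real.log x)) := rfl

/-- lower bound for the total second difference -/
theorem secdiff1_ge (x v : ℝ) (hx : 0 < x) (hv : 0 ≤ v) (M : ℕ) (hM : ⌊Real.exp (2 * v) * x⌋₊ ≤ M) :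
    v / 2 * (Chebyshev.psi (Real.exp (3 * v / 2) * x) - Chebyshev.psi (Real.exp (v / 2) * x)) ≤
    ∑ n ∈ Icc 1 M, ArithmeticFunction.vonMangoldt n * ww x v n := by
  set b := Real.exp (3 * v / 2) * x with hb
  set a := Real.exp (v / 2) * x with ha
  have ha0 : 0 < a := by positivity
  have hb0 : 0 < b := by positivity
  have hab : a ≤ b := mul_le_mul_of_nonneg_right (Real.exp_le_exp.2 (by linarith)) hx.le
  have hbM : ⌊b⌋₊ ≤ M := (Nat.floor_le_floor (mul_le_mul_of_nonneg_right
    (Real.exp_le_exp.2 (by linarith)) hx.le)).trans hM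
  have hfl : ⌊a⌋₊ ≤ ⌊b⌋₊ := Nat.floor_le_floor hab
  have e1 : Chebyshev.psi b - Chebyshev.psi a = ∑ n ∈ Ioc ⌊a⌋₊ ⌊b⌋₊, ArithmeticFunction.vonMangoldt n := by
    unfold Chebyshev.psi
    have h9 : Ioc 0 ⌊b⌋₊ = Ioc 0 ⌊a⌋₊ ∪ Ioc ⌊a⌋₊ ⌊b⌋₊ := by
      ext k
      rw [mem_union, mem_Ioc, mem_Ioc, mem_Ioc]
      omega
    have h10 : Disjoint (Ioc 0 ⌊a⌋₊) (Ioc ⌊a⌋₊ ⌊b⌋₊) := by
      rw [Finset.disjoint_left]
      intro k hk hk'
      rw [mem_Ioc] at hk hk'
      omega
    rw [h9, Finset.sum_union h10]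
    ring
  rw [e1, Finset.mul_sum]
  refine le_trans (Finset.sum_le_sum (g := fun n : ℕ => ArithmeticFunction.vonMangoldt n * ww x v n) ?_) ?_
  · intro n hn
    rw [mem_Ioc] at hn
    have h1 : a < n := (Nat.floor_lt ha0.le).1 hn.1
    have h2 : (n : ℝ) ≤ b := (Nat.le_floor_iff hb0.le).1 hn.2
    have hn0 : (0 : ℝ) < n := ha0.trans h1
    have h3 : v / 2 + Real.log x ≤ Real.log n := by
      rw [← Real.log_exp (v / 2), ← Real.log_mul (Real.exp_pos _).ne' hx.ne']
      exact Real.log_le_log ha0 h1.le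
    have h4 : Real.log n ≤ 3 * v / 2 + Real.log x := by
      rw [← Real.log_exp (3 * v / 2), ← Real.log_mul (Real.exp_pos _).ne' hx.ne']
      exact Real.log_le_log hn0 h2
    have h5 := (hat (Real.log n - Real.log x) v hv).2.2.2 (by linarith) (by linarith)
    rw [← ww_eq] at h5
    rw [mul_comm]
    exact mul_le_mul_of_nonneg_left h5 ArithmeticFunction.vonMangoldt_nonneg
  · apply Finset.sum_le_sum_of_subset_of_nonneg
    · intro n hn
      rw [mem_Ioc] at hn
      rw [mem_Icc]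
      omega
    · intro n _ _
      apply mul_nonneg ArithmeticFunction.vonMangoldt_nonneg
      rw [ww_eq]
      exact (hat (Real.log n - Real.log x) v hv).1

/-- upper bound for the second difference in a class without primes in `(x, exp (2 v) x]` -/
theorem secdiff_le (x v : ℝ) (hx : 1 ≤ x) (hv : 0 ≤ v) (q a : ℕ)
    (hno : ∀ p : ℕ, p.Prime → p ≡ a [MOD q] → x < p → ¬ (p : ℝ) ≤ Real.exp (2 * v) * x) :
    ∑ n ∈ (Icc 1 ⌊Real.exp (2 * v) * x⌋₊).filter (fun n => n ≡ a [MOD q]),
      ArithmeticFunction.vonMangoldt n * ww x v n ≤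
    v * (2 * Real.sqrt (Real.exp (2 * v) * x) * Real.log (Real.exp (2 * v) * x)) := by
  have hx0 : 0 < x := by linarith
  have he : 1 ≤ Real.exp (2 * v) := Real.one_le_exp (by linarith)
  have hX1 : 1 ≤ Real.exp (2 * v) * x := by nlinarith
  refine le_trans ?_ (mul_le_mul_of_nonneg_left (Pool.Agent.H378R2.sum_nonprime_le _ hX1) hv)
  rw [Finset.mul_sum]
  have h1 : ∀ n ∈ (Icc 1 ⌊Real.exp (2 * v) * x⌋₊).filter (fun n => n ≡ a [MOD q]),
      ArithmeticFunction.vonMangoldt n * ww x v n ≤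
      if ¬ n.Prime then v * ArithmeticFunction.vonMangoldt n else 0 := by
    intro n hn
    rw [mem_filter, mem_Icc] at hn
    have hn0 : (0 : ℝ) < n := by exact_mod_cast hn.1.1
    have hh := hat (Real.log n - Real.log x) v hv
    rw [← ww_eq] at hh
    by_cases hp : n.Prime
    swap
    · rw [if_pos hp, mul_comm]
      exact mul_le_mul_of_nonneg_right hh.2.1 ArithmeticFunction.vonMangoldt_nonneg
    · rw [if_neg (not_not.2 hp)]
      have h2 : ww x v n = 0 := by
        apply hh.2.2.1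
        rcases le_or_gt (n : ℝ) x with h3 | h3
        · left
          have := Real.log_le_log hn0 h3
          linarith
        · right
          have h4 := hno n hp hn.2 h3
          push Not at h4
          have h5 := Real.log_le_log (by positivity) h4.le
          rw [Real.log_mul (Real.exp_pos _).ne' hx0.ne', Real.log_exp] at h5
          linarith
      rw [h2, mul_zero]
  refine (Finset.sum_le_sum h1).trans ?_
  rw [Finset.sum_filter]
  rw [Finset.sum_filter]
  apply Finset.sum_le_sum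
  intro n _
  have h2 : 0 ≤ v * ArithmeticFunction.vonMangoldt n := mul_nonneg hv ArithmeticFunction.vonMangoldt_nonneg
  split_ifs <;> linarith

theorem exists_prime_short (q : ℕ) (hq : 0 < q) (a : ℕ) (ha : a.Coprime q) :
    ∀ᶠ y : ℝ in atTop, ∃ p : ℕ, p.Prime ∧ p ≡ a [MOD q] ∧ y < p ∧
      (p : ℝ) ≤ y + y / (Real.log y) ^ (1 / 60 : ℝ) := by
  obtain ⟨C, hC, hpsi⟩ := Pool.Agent.Helper923.H403.PNTQ.psi_quant
  obtain ⟨X0, hD⟩ := eventually_atTop.1 (disc q hq a ha)
  have hφ0 : (0 : ℝ) < q.totient := by exact_mod_cast Nat.totient_pos.2 hq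
  have e1 : ∀ᶠ x : ℝ in atTop, 20 * C + 256 * (q.totient : ℝ) + 2 ≤ (Real.log x) ^ (1 / 550 : ℝ) :=
    ((tendsto_rpow_atTop (by norm_num : (0 : ℝ) < 1 / 550)).comp
      Real.tendsto_log_atTop).eventually_ge_atTop _
  have e2 : ∀ᶠ x : ℝ in atTop, 4 ≤ (Real.log x) ^ (1 / 660 : ℝ) :=
    ((tendsto_rpow_atTop (by norm_num : (0 : ℝ) < 1 / 660)).comp
      Real.tendsto_log_atTop).eventually_ge_atTop _
  have e3 : ∀ᶠ x : ℝ in atTop, 192 * (q.totient : ℝ) * (Real.log x) ^ 2 ≤ Real.sqrt x := by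
    have h := (isLittleO_log_rpow_rpow_atTop (2 : ℝ) (show (0 : ℝ) < 1 / 2 by norm_num)).def
      (show (0 : ℝ) < 1 / (192 * (q.totient : ℝ)) by positivity)
    filter_upwards [h, eventually_ge_atTop (1 : ℝ)] with x h2 h3
    rw [Real.norm_of_nonneg (Real.rpow_nonneg (Real.log_nonneg h3) _),
      Real.norm_of_nonneg (Real.rpow_nonneg (by linarith) _), ← Real.sqrt_eq_rpow] at h2
    have h4 : Real.log x ^ (2 : ℝ) = Real.log x ^ (2 : ℕ) := by
      rw [← Real.rpow_natCast]; norm_num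
    rw [h4] at h2
    calc 192 * (q.totient : ℝ) * (Real.log x) ^ 2 ≤
        192 * (q.totient : ℝ) * (1 / (192 * (q.totient : ℝ)) * Real.sqrt x) := by gcongr
      _ = Real.sqrt x := by field_simp
  filter_upwards [e1, e2, e3, eventually_ge_atTop X0, eventually_ge_atTop (3 : ℝ),
    Real.tendsto_log_atTop.eventually_ge_atTop 1] with x h1 h2 h3 hxX0 hx3 hl1
  by_contra hcon
  push Not at hcon
  have hx0 : 0 < x := by linarith
  set l := Real.log x with hl
  have hl0 : 0 < l := by linarith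
  set t := l ^ (1 / 550 : ℝ) with ht
  have ht2 : 2 ≤ t := by
    have : 0 < 256 * (q.totient : ℝ) := by positivity
    linarith
  have ht1 : 1 ≤ t := by linarith
  have ht0 : 0 < t := by linarith
  have ht10 : t ^ 10 = l ^ (1 / 55 : ℝ) := by
    rw [ht, ← Real.rpow_natCast, ← Real.rpow_mul hl0.le]; norm_num
  have ht11 : t ^ 11 = l ^ (1 / 50 : ℝ) := by
    rw [ht, ← Real.rpow_natCast, ← Real.rpow_mul hl0.le]; norm_num
  have ht550 : t ^ 550 = l := by
    rw [ht, ← Real.rpow_natCast, ← Real.rpow_mul hl0.le]; norm_num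
  set v : ℝ := 1 / t ^ 10 with hv
  have hv0 : 0 < v := by positivity
  have hv2 : v ≤ 1 / 2 := by
    rw [hv]
    apply one_div_le_one_div_of_le (by norm_num)
    calc (2 : ℝ) ≤ t := ht2
      _ = t ^ 1 := (pow_one t).symm
      _ ≤ t ^ 10 := pow_le_pow_right₀ ht1 (by norm_num)
  -- the interval
  have hexp : Real.exp (2 * v) ≤ 1 + 4 * v := by
    have h4 := Real.abs_exp_sub_one_sub_id_le (show |2 * v| ≤ 1 by
      rw [abs_of_pos (by positivity)]; linarith)
    have h5 := (abs_le.1 h4).2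
    nlinarith
  have hint : Real.exp (2 * v) * x ≤ x + x / l ^ (1 / 60 : ℝ) := by
    have h5 : 4 * v ≤ 1 / l ^ (1 / 60 : ℝ) := by
      rw [hv, ht10, show (1 / 55 : ℝ) = 1 / 60 + 1 / 660 by norm_num, Real.rpow_add hl0]
      have h6 : 0 < l ^ (1 / 60 : ℝ) := Real.rpow_pos_of_pos hl0 _
      have h7 : 0 < l ^ (1 / 660 : ℝ) := Real.rpow_pos_of_pos hl0 _
      rw [mul_one_div, div_le_div_iff₀ (by positivity) h6]
      calc 4 * l ^ (1 / 60 : ℝ) ≤ l ^ (1 / 660 : ℝ) * l ^ (1 / 60 : ℝ) := by gcongr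
        _ = _ := by ring
    calc Real.exp (2 * v) * x ≤ (1 + 4 * v) * x := by gcongr
      _ = x + (4 * v) * x := by ring
      _ ≤ x + (1 / l ^ (1 / 60 : ℝ)) * x := by gcongr
      _ = _ := by ring
  have hno : ∀ p : ℕ, p.Prime → p ≡ a [MOD q] → x < p → ¬ (p : ℝ) ≤ Real.exp (2 * v) * x := by
    intro p hp hpa hxp hle
    have h4 := hcon p hp hpa hxp
    linarith
  set X2 := Real.exp (2 * v) * x with hX2
  set M := ⌊X2⌋₊ with hM
  have hup := secdiff_le x v (by linarith) hv0.le q a hno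
  rw [← hX2, ← hM] at hup
  have hlow := secdiff1_ge x v hx0 hv0.le M (le_of_eq hM.symm)
  have hs1 := secdiff x v hx0 hv0.le M (le_of_eq hM.symm) q a
  have hs2 := secdiff1 x v hx0 hv0.le M (le_of_eq hM.symm)
  rw [← hs1] at hup
  rw [← hs2] at hlow
  have hX28 : X2 ≤ 3 * x := by
    rw [hX2]
    have : (1 : ℝ) + 4 * v ≤ 3 := by linarith
    exact mul_le_mul_of_nonneg_right (hexp.trans this) hx0.le
  have hDk : ∀ k : ℝ, 0 ≤ k → k ≤ 2 → |psiLogAP (Real.exp (k * v) * x) q a -
      psiLog1 (Real.exp (k * v) * x) / (q.totient : ℝ)| ≤ 3 * x / l := by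
    intro k hk0 hk2
    have h4 : 1 ≤ Real.exp (k * v) := Real.one_le_exp (by positivity)
    have h5 : x ≤ Real.exp (k * v) * x := by nlinarith
    have h6 : Real.exp (k * v) * x ≤ 3 * x := by
      refine le_trans ?_ hX28
      rw [hX2]
      apply mul_le_mul_of_nonneg_right _ hx0.le
      apply Real.exp_le_exp.2
      exact mul_le_mul_of_nonneg_right hk2 hv0.le
    refine (hD _ (hxX0.trans h5)).trans ?_
    apply div_le_div₀ (by positivity) h6 hl0
    exact Real.log_le_log hx0 h5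
  have hD2 := hDk 2 (by norm_num) le_rfl
  have hD1 := hDk 1 (by norm_num) (by norm_num)
  have hD0 := hDk 0 le_rfl (by norm_num)
  rw [abs_le] at hD2 hD1 hD0
  rw [← hX2] at hD2
  -- the main term
  have hps1 := hpsi (Real.exp (3 * v / 2) * x) (by
    have : 1 ≤ Real.exp (3 * v / 2) := Real.one_le_exp (by positivity)
    nlinarith)
  have hps2 := hpsi (Real.exp (v / 2) * x) (by
    have : 1 ≤ Real.exp (v / 2) := Real.one_le_exp (by positivity)
    nlinarith)
  have herr : ∀ k : ℝ, 0 ≤ k → k ≤ 2 → C * (Real.exp (k * v) * x) /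
      (Real.log (Real.exp (k * v) * x)) ^ (1 / 50 : ℝ) ≤ 3 * C * x / t ^ 11 := by
    intro k hk0 hk2
    have h4 : 1 ≤ Real.exp (k * v) := Real.one_le_exp (by positivity)
    have h5 : x ≤ Real.exp (k * v) * x := by nlinarith
    have h6 : Real.exp (k * v) * x ≤ 3 * x := by
      refine le_trans ?_ hX28
      rw [hX2]
      apply mul_le_mul_of_nonneg_right _ hx0.le
      apply Real.exp_le_exp.2
      exact mul_le_mul_of_nonneg_right hk2 hv0.le
    rw [ht11]
    apply div_le_div₀ (by positivity) _ (Real.rpow_pos_of_pos hl0 _)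
    · exact Real.rpow_le_rpow hl0.le (Real.log_le_log hx0 h5) (by norm_num)
    · calc C * (Real.exp (k * v) * x) ≤ C * (3 * x) := by gcongr
        _ = 3 * C * x := by ring
  have he1 := herr (3 / 2) (by norm_num) (by norm_num)
  have he2 := herr (1 / 2) (by norm_num) (by norm_num)
  rw [show (3 / 2 : ℝ) * v = 3 * v / 2 by ring] at he1
  rw [show (1 / 2 : ℝ) * v = v / 2 by ring] at he2
  have hp1 := (abs_le.1 (hps1.trans he1)).1
  have hp2 := (abs_le.1 (hps2.trans he2)).2
  have hdiff : v * x ≤ Real.exp (3 * v / 2) * x - Real.exp (v / 2) * x := by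
    have h4 : Real.exp (3 * v / 2) = Real.exp (v / 2) * Real.exp v := by
      rw [← Real.exp_add]; congr 1; ring
    have h5 := Real.add_one_le_exp v
    have h6 : 1 ≤ Real.exp (v / 2) := Real.one_le_exp (by positivity)
    have h7 : v ≤ Real.exp (3 * v / 2) - Real.exp (v / 2) := by
      rw [h4]; nlinarith
    nlinarith
  have hCt : 3 * C * x / t ^ 11 ≤ v * x / 4 := by
    have h4 : 20 * C ≤ t := by
      have : 0 < 256 * (q.totient : ℝ) := by positivity
      linarith
    rw [hv, div_le_iff₀ (by positivity)]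
    have h5 : 1 / t ^ 10 * x / 4 * t ^ 11 = t * x / 4 := by
      field_simp
    rw [h5]
    nlinarith
  have hmain : v * x / 2 ≤ Chebyshev.psi (Real.exp (3 * v / 2) * x) - Chebyshev.psi (Real.exp (v / 2) * x) := by
    linarith
  have hT1 : v ^ 2 * x / 4 ≤ psiLog1 X2 - 2 * psiLog1 (Real.exp (1 * v) * x) +
      psiLog1 (Real.exp (0 * v) * x) := by
    refine le_trans ?_ hlow
    calc v ^ 2 * x / 4 = v / 2 * (v * x / 2) := by ring
      _ ≤ _ := mul_le_mul_of_nonneg_left hmain (by positivity)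
  have hT1' : v ^ 2 * x / 4 / q.totient ≤ psiLog1 X2 / q.totient -
      2 * (psiLog1 (Real.exp (1 * v) * x) / q.totient) + psiLog1 (Real.exp (0 * v) * x) / q.totient := by
    have h4 := div_le_div_of_nonneg_right hT1 hφ0.le
    refine h4.trans (le_of_eq ?_)
    ring
  have hfin : v ^ 2 * x / 4 / q.totient ≤ 12 * x / l + v * (2 * Real.sqrt X2 * Real.log X2) := by
    have e12 : 12 * x / l = 4 * (3 * x / l) := by ring
    rw [e12]
    linarith
  -- contradiction
  have hA : 12 * x / l < v ^ 2 * x / 8 / q.totient := by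
    rw [hv, ← ht550]
    have h4 : 256 * (q.totient : ℝ) < t := by linarith
    have h5 : t ≤ t ^ 530 := by
      calc t = t ^ 1 := (pow_one t).symm
        _ ≤ t ^ 530 := pow_le_pow_right₀ ht1 (by norm_num)
    rw [div_div, div_lt_div_iff₀ (by positivity) (by positivity)]
    have e5 : (1 / t ^ 10) ^ 2 * x * t ^ 550 = x * t ^ 530 := by
      field_simp
    rw [e5]
    nlinarith
  have hB : v * (2 * Real.sqrt X2 * Real.log X2) ≤ v ^ 2 * x / 8 / q.totient := by
    have h4 : Real.sqrt X2 ≤ 2 * Real.sqrt x := by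
      calc Real.sqrt X2 ≤ Real.sqrt (4 * x) := Real.sqrt_le_sqrt (by linarith)
        _ = 2 * Real.sqrt x := by
          rw [Real.sqrt_mul (by norm_num), show (4 : ℝ) = 2 ^ 2 by norm_num, Real.sqrt_sq (by norm_num)]
    have h5 : Real.log X2 ≤ 3 * l := by
      have h6 : X2 ≤ x * x := by nlinarith
      have hX20 : 0 < X2 := by positivity
      have h7 := Real.log_le_log hX20 h6
      rw [Real.log_mul hx0.ne' hx0.ne'] at h7
      linarith
    have h6 : 0 ≤ Real.log X2 := Real.log_nonneg (by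
      have : 1 ≤ Real.exp (2 * v) := Real.one_le_exp (by positivity)
      nlinarith)
    have h7 : 2 * Real.sqrt X2 * Real.log X2 ≤ 12 * l * Real.sqrt x := by
      calc 2 * Real.sqrt X2 * Real.log X2 ≤ 2 * (2 * Real.sqrt x) * (3 * l) := by gcongr
        _ = _ := by ring
    have h8 : t ^ 10 ≤ l := by
      rw [← ht550]
      exact pow_le_pow_right₀ ht1 (by norm_num)
    have hsq : Real.sqrt x * Real.sqrt x = x := Real.mul_self_sqrt hx0.le
    have hsx : 0 ≤ Real.sqrt x := Real.sqrt_nonneg x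
    have h9 : 12 * l * Real.sqrt x ≤ v * x / 8 / q.totient := by
      rw [hv, div_div, le_div_iff₀ (by positivity)]
      have h10 : 1 / t ^ 10 * x = x / t ^ 10 := by ring
      rw [h10, le_div_iff₀ (by positivity)]
      calc 12 * l * Real.sqrt x * (8 * q.totient) * t ^ 10 ≤ 12 * l * Real.sqrt x * (8 * q.totient) * l := by gcongr
        _ = (96 * q.totient * l ^ 2) * Real.sqrt x := by ring
        _ ≤ Real.sqrt x * Real.sqrt x := by
          apply mul_le_mul_of_nonneg_right _ hsx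
          have : 0 ≤ (q.totient : ℝ) * l ^ 2 := by positivity
          linarith
        _ = x := hsq
    calc v * (2 * Real.sqrt X2 * Real.log X2) ≤ v * (v * x / 8 / q.totient) :=
          mul_le_mul_of_nonneg_left (h7.trans h9) hv0.le
      _ = _ := by ring
  have hC2 : v ^ 2 * x / 4 / q.totient = v ^ 2 * x / 8 / q.totient + v ^ 2 * x / 8 / q.totient := by ring
  linarith

end Pool.Agent.W142.ES
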