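import Mathlib
import Pool.Agent.Helper903.DHJ

set_option autoImplicit false

/-! ES: words with hierarchical positions and combinatorial lines. -/

open Finset

namespace Pool.Agent.W142.ES

/-- the density Hales-Jewett theorem with cardinalities -/
theorem dhj_card (α : Type) [Fintype α] [Nonempty α] (η : ℝ) (hη : 0 < η) :
    ∃ N : ℕ, 1 ≤ N ∧ ∀ A : Finset (Fin N → α), η * (Fintype.card α : ℝ) ^ N ≤ A.card →
      ∃ L : Combinatorics.Line α (Fin N), ∀ a, L a ∈ A := by
  classical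
  have hα : (0 : ℝ) < Fintype.card α := by exact_mod_cast Fintype.card_pos
  rcases lt_or_ge 1 η with hη1 | hη1
  · refine ⟨1, le_rfl, fun A hA => ?_⟩
    exfalso
    have h1 : A.card ≤ (Fintype.card α) ^ 1 := by
      have h2 := Finset.card_le_univ A
      rwa [Fintype.card_fun, Fintype.card_fin] at h2
    have h2 : (A.card : ℝ) ≤ (Fintype.card α : ℝ) ^ 1 := by exact_mod_cast h1
    rw [pow_one] at hA h2
    nlinarith
  obtain ⟨n, hn⟩ := Pool.Agent.Helper903.DHJ.ldhj α η hη
  have hn1 : 1 ≤ n := by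
    by_contra h0
    have h0' : n = 0 := by omega
    subst h0'
    obtain ⟨L, -⟩ := hn Set.univ (by
      have h1 : Pool.Agent.Helper903.DHJ.dens (Set.univ : Set (Fin 0 → α)) = 1 := by
        unfold Pool.Agent.Helper903.DHJ.dens Pool.Agent.Helper903.DHJ.avg Pool.Agent.Helper903.DHJ.ind
        simp
      rw [h1]
      exact hη1)
    obtain ⟨i, -⟩ := L.proper
    exact i.elim0
  refine ⟨n, hn1, fun A hA => ?_⟩
  obtain ⟨L, hL⟩ := hn (A : Set (Fin n → α)) (by
    have h1 : Pool.Agent.Helper903.DHJ.dens (A : Set (Fin n → α)) =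
        (A.card : ℝ) / (Fintype.card α : ℝ) ^ n := by
      unfold Pool.Agent.Helper903.DHJ.dens Pool.Agent.Helper903.DHJ.avg
      congr 1
      · unfold Pool.Agent.Helper903.DHJ.ind
        simp [Set.indicator_apply, Finset.sum_ite_mem]
      · simp
    have h2 : (0 : ℝ) < (Fintype.card α : ℝ) ^ n := by
      have : (0 : ℝ) < Fintype.card α := by exact_mod_cast Fintype.card_pos
      positivity
    rw [h1, le_div_iff₀ h2]
    exact hA)
  exact ⟨L, fun i => by exact_mod_cast hL i⟩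

theorem tail_bound (f s : ℕ → ℝ) (N : ℕ) (h : ∀ i < N, |f i| + s (i + 1) ≤ s i) (l j : ℕ)
    (hlj : l ≤ j) (hj : j ≤ N) : |∑ i ∈ Ico l j, f i| ≤ s l - s j := by
  induction j, hlj using Nat.le_induction with
  | base => simp
  | succ j hlj ih =>
    rw [Finset.sum_Ico_succ_top hlj]
    have h1 := ih (by omega)
    have h2 := h j (by omega)
    have h3 := abs_add_le (∑ i ∈ Ico l j, f i) (f j)
    linarith

/-- the displacement of level `i` in the word `w` -/
noncomputable def lev {α : Type} {N : ℕ} (y : ℕ → α → ℝ) (w : Fin N → α) (i : ℕ) : ℝ :=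
  if h : i < N then y i (w ⟨i, h⟩) else 0

/-- the position of a word -/
noncomputable def pos {α : Type} {N : ℕ} (y : ℕ → α → ℝ) (w : Fin N → α) : ℝ :=
  ∑ i ∈ range N, lev y w i

theorem lev_of_lt {α : Type} {N : ℕ} (y : ℕ → α → ℝ) (w : Fin N → α) {i : ℕ} (h : i < N) :
    lev y w i = y i (w ⟨i, h⟩) := dif_pos h

theorem lev_step {α : Type} {N : ℕ} (y : ℕ → α → ℝ) (s : ℕ → ℝ)
    (hs : ∀ i < N, ∀ a, |y i a| + s (i + 1) ≤ s i) (w : Fin N → α) :
    ∀ i < N, |lev y w i| + s (i + 1) ≤ s i := by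
  intro i hi
  rw [lev_of_lt y w hi]
  exact hs i hi _

theorem pos_split {α : Type} {N : ℕ} (y : ℕ → α → ℝ) (w : Fin N → α) {j : ℕ} (hj : j < N) :
    pos y w = (∑ i ∈ range j, lev y w i) + lev y w j + ∑ i ∈ Ico (j + 1) N, lev y w i := by
  unfold pos
  rw [← Finset.sum_range_succ, ← Finset.sum_range_add_sum_Ico _ (by omega : j + 1 ≤ N)]

theorem pos_le {α : Type} {N : ℕ} (y : ℕ → α → ℝ) (s : ℕ → ℝ)
    (hs : ∀ i < N, ∀ a, |y i a| + s (i + 1) ≤ s i) (hsN : 0 ≤ s N) (w : Fin N → α) :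
    |pos y w| ≤ s 0 := by
  have h := tail_bound (lev y w) s N (lev_step y s hs w) 0 N (Nat.zero_le _) le_rfl
  unfold pos
  rw [Finset.range_eq_Ico]
  linarith

/-- the words of a line, seen at the level of the first wildcard -/
theorem line_core {α : Type} [Nonempty α] {N : ℕ} (y : ℕ → α → ℝ) (s r : ℕ → ℝ)
    (hs : ∀ i < N, ∀ a, |y i a| + s (i + 1) ≤ s i) (hs0 : ∀ i ≤ N, 0 ≤ s i)
    (hsep : ∀ i j, i < j → j < N → ∀ a b, y i a ≠ y i b → r j + 2 * s (i + 1) < |y i a - y i b|)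
    (L : Combinatorics.Line α (Fin N)) :
    ∃ j < N, ∃ z : ℝ, |z| ≤ s 0 ∧ (∀ a, |pos y (L a) - (z + y j a)| ≤ s (j + 1)) ∧
      ∀ w : Fin N → α, |pos y w - z| ≤ r j → ∃ a, |pos y w - (z + y j a)| ≤ s (j + 1) := by
  classical
  obtain ⟨a0⟩ := ‹Nonempty α›
  have hex : ∃ i : ℕ, ∃ h : i < N, L.idxFun ⟨i, h⟩ = none := by
    obtain ⟨i, hi⟩ := L.proper
    exact ⟨i, i.2, hi⟩
  set j := Nat.find hex with hjdef
  obtain ⟨hjN, hjnone⟩ := Nat.find_spec hex
  rw [← hjdef] at hjN
  have hmin : ∀ i < j, ∀ a, lev y (L a) i = lev y (L a0) i := by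
    intro i hi a
    have hiN : i < N := hi.trans hjN
    rw [lev_of_lt _ _ hiN, lev_of_lt _ _ hiN]
    have h1 := Nat.find_min hex hi
    push Not at h1
    obtain ⟨c, hc⟩ := Option.ne_none_iff_exists'.1 (h1 hiN)
    rw [Combinatorics.Line.apply_some hc, Combinatorics.Line.apply_some hc]
  have hlj : ∀ a, lev y (L a) j = y j a := by
    intro a
    rw [lev_of_lt _ _ hjN, Combinatorics.Line.apply_none L a _ hjnone]
  set z : ℝ := ∑ i ∈ range j, lev y (L a0) i with hz
  have hstep := fun w : Fin N → α => lev_step y s hs w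
  have htail : ∀ (w : Fin N → α) (l : ℕ), l ≤ N → |∑ i ∈ Ico l N, lev y w i| ≤ s l := by
    intro w l hl
    have h1 := tail_bound (lev y w) s N (hstep w) l N hl le_rfl
    have h2 := hs0 N le_rfl
    linarith
  refine ⟨j, hjN, z, ?_, ?_, ?_⟩
  · have h1 := tail_bound (lev y (L a0)) s N (hstep _) 0 j (Nat.zero_le _) hjN.le
    have h2 := hs0 j hjN.le
    rw [hz, Finset.range_eq_Ico]
    linarith
  · intro a
    have h1 : ∑ i ∈ range j, lev y (L a) i = z := Finset.sum_congr rfl fun i hi =>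
      hmin i (Finset.mem_range.1 hi) a
    rw [pos_split y (L a) hjN, h1, hlj a]
    have h2 := htail (L a) (j + 1) (by omega)
    rwa [add_sub_cancel_left]
  · intro w hw
    by_cases hall : ∀ i < j, lev y w i = lev y (L a0) i
    · refine ⟨w ⟨j, hjN⟩, ?_⟩
      have h1 : ∑ i ∈ range j, lev y w i = z := Finset.sum_congr rfl fun i hi =>
        hall i (Finset.mem_range.1 hi)
      rw [pos_split y w hjN, h1, lev_of_lt y w hjN]
      have h2 := htail w (j + 1) (by omega)
      rwa [add_sub_cancel_left]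
    · exfalso
      push Not at hall
      have hex2 : ∃ i, i < j ∧ lev y w i ≠ lev y (L a0) i := by
        obtain ⟨i, hi, hne⟩ := hall
        exact ⟨i, hi, hne⟩
      set i0 := Nat.find hex2 with hi0
      obtain ⟨hi0j, hi0ne⟩ := Nat.find_spec hex2
      rw [← hi0] at hi0j hi0ne
      have hbef : ∀ i < i0, lev y w i = lev y (L a0) i := by
        intro i hi
        by_contra hne
        exact Nat.find_min hex2 hi ⟨hi.trans hi0j, hne⟩
      have hi0N : i0 < N := hi0j.trans hjN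
      have e1 : ∑ i ∈ range i0, lev y w i = ∑ i ∈ range i0, lev y (L a0) i :=
        Finset.sum_congr rfl fun i hi => hbef i (Finset.mem_range.1 hi)
      have e2 : z = (∑ i ∈ range i0, lev y (L a0) i) + lev y (L a0) i0 +
          ∑ i ∈ Ico (i0 + 1) j, lev y (L a0) i := by
        rw [hz, ← Finset.sum_range_succ, ← Finset.sum_range_add_sum_Ico _ (by omega : i0 + 1 ≤ j)]
      have e3 : pos y w - z = (lev y w i0 - lev y (L a0) i0) + (∑ i ∈ Ico (i0 + 1) N, lev y w i) -
          ∑ i ∈ Ico (i0 + 1) j, lev y (L a0) i := by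
        rw [pos_split y w hi0N, e1, e2]
        ring
      have h1 := htail w (i0 + 1) (by omega)
      have h2 := tail_bound (lev y (L a0)) s N (hstep _) (i0 + 1) j (by omega) hjN.le
      have h3 := hs0 j hjN.le
      rw [lev_of_lt _ _ hi0N, lev_of_lt _ _ hi0N] at hi0ne
      have h4 := hsep i0 j hi0j hjN _ _ hi0ne
      rw [lev_of_lt _ _ hi0N, lev_of_lt _ _ hi0N] at e3
      set u := y i0 (w ⟨i0, hi0N⟩) - y i0 ((L a0) ⟨i0, hi0N⟩) with hu
      have h5 : |u| ≤ |pos y w - z| + |∑ i ∈ Ico (i0 + 1) N, lev y w i| +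
          |∑ i ∈ Ico (i0 + 1) j, lev y (L a0) i| := by
        have e4 : u = (pos y w - z) - (∑ i ∈ Ico (i0 + 1) N, lev y w i) +
            ∑ i ∈ Ico (i0 + 1) j, lev y (L a0) i := by
          rw [e3]; ring
        rw [e4]
        refine (abs_add_le _ _).trans ?_
        have := abs_sub (pos y w - z) (∑ i ∈ Ico (i0 + 1) N, lev y w i)
        linarith
      linarith

end Pool.Agent.W142.ES
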