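import Mathlib
import Pool.Agent.H362R2.RQ.Place
import Pool.Agent.W142.ES.Prime

set_option autoImplicit false

/-! ES: windows with primes near prescribed positions, with a placing error which may be a small part of
the window. -/

open Finset Filter

namespace Pool.Agent.W142.ES

open Pool.Agent.H378R2 (yy)
open Pool.Agent.H256R2.SC (ff)
open Pool.Agent.H362R2.RQ (StRQ cmod fib_cmod dvd_of_primes)

/-- growth facts -/
theorem ev_place (K : ℕ) (Y0 : ℝ) : ∀ᶠ X : ℝ in atTop, 8 * |Y0| + 80 ≤ Real.log X ∧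
    1 ≤ Real.log (Real.log X) ∧
    (K : ℝ) * (Real.log (Real.log X)) ^ (1 / 65 : ℝ) ≤ (Real.log (Real.log X) / 2) ^ (1 / 60 : ℝ) ∧
    2 * Real.log 8 ≤ Real.log (Real.log X) := by
  have hLL : Tendsto (fun X : ℝ => Real.log (Real.log X)) atTop atTop :=
    Real.tendsto_log_atTop.comp Real.tendsto_log_atTop
  have h1 : ∀ᶠ u : ℝ in atTop, (K : ℝ) * u ^ (1 / 65 : ℝ) ≤ (u / 2) ^ (1 / 60 : ℝ) := by
    have h2 : ∀ᶠ u : ℝ in atTop, (K : ℝ) * 2 ^ (1 / 60 : ℝ) ≤ u ^ (1 / 780 : ℝ) :=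
      (tendsto_rpow_atTop (by norm_num : (0 : ℝ) < 1 / 780)).eventually_ge_atTop _
    filter_upwards [h2, eventually_ge_atTop (1 : ℝ)] with u hu hu1
    have hu0 : 0 < u := by linarith
    have e1 : u ^ (1 / 60 : ℝ) = u ^ (1 / 65 : ℝ) * u ^ (1 / 780 : ℝ) := by
      rw [← Real.rpow_add hu0]; norm_num
    rw [Real.div_rpow hu0.le (by norm_num), le_div_iff₀ (Real.rpow_pos_of_pos (by norm_num) _), e1]
    calc (K : ℝ) * u ^ (1 / 65 : ℝ) * 2 ^ (1 / 60 : ℝ) = u ^ (1 / 65 : ℝ) * ((K : ℝ) * 2 ^ (1 / 60 : ℝ)) := by ring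
      _ ≤ _ := mul_le_mul_of_nonneg_left hu (Real.rpow_nonneg hu0.le _)
  filter_upwards [Real.tendsto_log_atTop.eventually_ge_atTop (8 * |Y0| + 80),
    hLL.eventually_ge_atTop 1, hLL.eventually h1, hLL.eventually_ge_atTop (2 * Real.log 8)]
    with X a1 a2 a3 a4
  exact ⟨a1, a2, a3, a4⟩

/-- windows with prescribed positions -/
theorem place (h : StRQ) : ∃ η : ℝ, 0 < η ∧ ∀ m : ℕ, 1 ≤ m → ∃ K : ℕ, 1 ≤ K ∧ ∃ c : ℝ, 0 < c ∧
    ∀ q a : ℕ, Squarefree q → a.Coprime q → ∀ᶠ X : ℝ in atTop, ∀ F τ : ℝ, Real.log X ≤ F → F ≤ c * ff X →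
    F / (Real.log (Real.log X)) ^ (1 / 65 : ℝ) ≤ τ → τ ≤ F / 8 →
    ∀ P : Fin m → ℝ, (∀ d, F / 4 ≤ P d ∧ P d ≤ 3 * F / 4) →
    ∀ bad : Finset ℕ, (bad.card : ℝ) ≤ X ^ (9 / 10 : ℝ) →
    ∃ n : ℕ, X < n ∧ (n : ℝ) ≤ 3 * X ∧ n ∉ bad ∧ ∃ (t : Fin K → ℕ) (col : Fin K → Fin m),
      Function.Injective t ∧ (∀ j, |(t j : ℝ) - P (col j)| ≤ τ) ∧
      (∃ D : Finset (Fin m), η * m ≤ D.card ∧ ∀ d ∈ D, ∃ j, col j = d ∧ (n + t j).Prime) ∧
      ∀ s : ℕ, (s : ℝ) ≤ F → (n + s).Prime → n + s ≡ a [MOD q] ∧ ∃ j, s = t j := by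
  obtain ⟨η, hη, hmain⟩ := h
  refine ⟨η, hη, fun m hm => ?_⟩
  obtain ⟨K, hmK, c, hc, hX1'⟩ := hmain m hm
  have hK0 : 0 < K := by omega
  refine ⟨K, hK0, c, hc, fun q a hqsf haq => ?_⟩
  have hq0 : 0 < q := Nat.pos_of_ne_zero hqsf.ne_zero
  obtain ⟨X1, hX1⟩ := hX1' q
  have hKr : (0 : ℝ) < K := by exact_mod_cast hK0
  obtain ⟨Y0, hY0⟩ := Filter.eventually_atTop.1 (exists_prime_short q hq0 a haq)
  filter_upwards [eventually_ge_atTop X1, ev_place K Y0] with X hXX1 hX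
  obtain ⟨hlX, hLL1, hLLK, hLL8⟩ := hX
  intro F τ hlF hFc hτ1 hτ2 P hP bad hbad
  have hY0n := abs_nonneg Y0
  have hF80 : 8 * |Y0| + 80 ≤ F := hlX.trans hlF
  have hFpos : 0 < F := by linarith
  have hLLpos : 0 < Real.log (Real.log X) := by linarith
  have hr65 : 0 < (Real.log (Real.log X)) ^ (1 / 65 : ℝ) := Real.rpow_pos_of_pos hLLpos _
  have hτ0 : 0 < τ := lt_of_lt_of_le (by positivity) hτ1
  set u : ℝ := τ / K with hu
  have hu0 : 0 < u := by positivity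
  have huK : u * K = τ := by rw [hu]; field_simp
  set col := cmod K m hm with hcol
  set Nn : Fin K → ℕ := fun j => K * ⌊P (col j) / τ⌋₊ + (j : ℕ) with hNn
  have hPnn : ∀ d, 0 ≤ P d / τ := fun d => div_nonneg (by have := (hP d).1; linarith) hτ0.le
  have hyN : ∀ j, u * (Nn j : ℝ) = τ * ⌊P (col j) / τ⌋₊ + u * (j : ℕ) := by
    intro j
    simp only [hNn]
    push_cast
    rw [← huK]
    ring
  have hfl1 : ∀ d, τ * (⌊P d / τ⌋₊ : ℝ) ≤ P d := by
    intro d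
    calc τ * (⌊P d / τ⌋₊ : ℝ) ≤ τ * (P d / τ) := mul_le_mul_of_nonneg_left (Nat.floor_le (hPnn d)) hτ0.le
      _ = P d := by field_simp
  have hfl2 : ∀ d, P d ≤ τ * (⌊P d / τ⌋₊ : ℝ) + τ := by
    intro d
    calc P d = τ * (P d / τ) := by field_simp
      _ ≤ τ * (⌊P d / τ⌋₊ + 1) := mul_le_mul_of_nonneg_left (Nat.lt_floor_add_one _).le hτ0.le
      _ = _ := by ring
  have hjK : ∀ j : Fin K, 0 ≤ u * ((j : ℕ) : ℝ) ∧ u * (((j : ℕ) : ℝ) + 1) ≤ τ := by
    intro j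
    constructor
    · positivity
    · have h1 : ((j : ℕ) : ℝ) + 1 ≤ K := by exact_mod_cast j.2
      calc u * (((j : ℕ) : ℝ) + 1) ≤ u * K := mul_le_mul_of_nonneg_left h1 hu0.le
        _ = τ := huK
  have hylow : ∀ j, F / 8 ≤ u * (Nn j : ℝ) := by
    intro j
    have h1 := hyN j
    have h2 := hfl2 (col j)
    have h3 := (hjK j).1
    have h4 := (hP (col j)).1
    linarith
  have hyup : ∀ j, u * (Nn j : ℝ) ≤ F := by
    intro j
    have h1 := hyN j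
    have h2 := hfl1 (col j)
    have h3 := (hjK j).2
    have h4 := (hP (col j)).2
    have h5 : u * (((j : ℕ) : ℝ) + 1) = u * ((j : ℕ) : ℝ) + u := by ring
    linarith
  -- primes
  have hshort : ∀ j, u * (Nn j : ℝ) / (Real.log (u * (Nn j : ℝ))) ^ (1 / 60 : ℝ) ≤ u := by
    intro j
    have h1 := hylow j
    have h2 := hyup j
    have h3 : Real.log (Real.log X) / 2 ≤ Real.log (u * (Nn j : ℝ)) := by
      have h4 : Real.log X / 8 ≤ u * (Nn j : ℝ) := by linarith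
      have h5 : 0 < Real.log X := by linarith
      have h6 := Real.log_le_log (by positivity) h4
      rw [Real.log_div h5.ne' (by norm_num)] at h6
      linarith
    have h4 : (Real.log (Real.log X) / 2) ^ (1 / 60 : ℝ) ≤ (Real.log (u * (Nn j : ℝ))) ^ (1 / 60 : ℝ) :=
      Real.rpow_le_rpow (by positivity) h3 (by norm_num)
    have h5 : (K : ℝ) * (Real.log (Real.log X)) ^ (1 / 65 : ℝ) ≤ (Real.log (u * (Nn j : ℝ))) ^ (1 / 60 : ℝ) :=
      hLLK.trans h4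
    have h6 : 0 < (Real.log (u * (Nn j : ℝ))) ^ (1 / 60 : ℝ) := lt_of_lt_of_le (by positivity) h5
    rw [div_le_iff₀ h6]
    calc u * (Nn j : ℝ) ≤ F := h2
      _ = (F / (Real.log (Real.log X)) ^ (1 / 65 : ℝ)) * (Real.log (Real.log X)) ^ (1 / 65 : ℝ) := by
        field_simp
      _ ≤ τ * (Real.log (Real.log X)) ^ (1 / 65 : ℝ) := by gcongr
      _ = u * ((K : ℝ) * (Real.log (Real.log X)) ^ (1 / 65 : ℝ)) := by rw [← huK]; ring
      _ ≤ _ := mul_le_mul_of_nonneg_left h5 hu0.le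
  have hex : ∀ j, ∃ p : ℕ, p.Prime ∧ p ≡ a [MOD q] ∧ u * (Nn j : ℝ) < p ∧ (p : ℝ) ≤ u * (Nn j : ℝ) + u := by
    intro j
    have h1 := hylow j
    obtain ⟨p, hp, hpa, hp1, hp2⟩ := hY0 (u * (Nn j : ℝ)) (by
      have := le_abs_self Y0
      linarith)
    exact ⟨p, hp, hpa, hp1, hp2.trans (by have := hshort j; linarith)⟩
  choose t htp hta htl htu using hex
  have htinj : Function.Injective t := by
    intro j j' hjj
    have h1 := htl j
    have h2 := htu j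
    have h3 := htl j'
    have h4 := htu j'
    rw [← hjj] at h3 h4
    have h5 : (Nn j : ℝ) < Nn j' + 1 := by
      have : u * (Nn j : ℝ) < u * (Nn j' + 1) := by linarith
      exact lt_of_mul_lt_mul_left this hu0.le
    have h6 : (Nn j' : ℝ) < Nn j + 1 := by
      have : u * (Nn j' : ℝ) < u * (Nn j + 1) := by linarith
      exact lt_of_mul_lt_mul_left this hu0.le
    have h7 : Nn j < Nn j' + 1 := by exact_mod_cast h5
    have h8 : Nn j' < Nn j + 1 := by exact_mod_cast h6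
    have h9 : Nn j = Nn j' := by omega
    have h10 := congrArg (fun x => x % K) h9
    simp only [hNn, Nat.mul_add_mod, Nat.mod_eq_of_lt j.2, Nat.mod_eq_of_lt j'.2] at h10
    exact Fin.ext h10
  have htP : ∀ j, |(t j : ℝ) - P (col j)| ≤ τ := by
    intro j
    have h1 := hyN j
    have h2 := hfl1 (col j)
    have h3 := hfl2 (col j)
    have h4 := hjK j
    have h5 := htl j
    have h6 := htu j
    have h7 : u * (((j : ℕ) : ℝ) + 1) = u * ((j : ℕ) : ℝ) + u := by ring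
    rw [abs_le]
    constructor <;> linarith
  have htF : ∀ j, (t j : ℝ) ≤ F := by
    intro j
    have h1 := (abs_le.1 (htP j)).2
    have h2 := (hP (col j)).2
    linarith
  have htyy : ∀ j, yy X < t j := by
    intro j
    have h0 : 0 ≤ Real.log X := by linarith
    have h1 : (yy X : ℝ) ≤ Real.log X / 1000 := Nat.floor_le (by positivity)
    have h4 := hylow j
    have h5 := htl j
    have h6 : (yy X : ℝ) < t j := by linarith
    exact_mod_cast h6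
  obtain ⟨n, hn1, hn2, hn3, ⟨G, hG1, hG2⟩, hn4, hn5⟩ := hX1 X hXX1 t htinj
    (fun j => ⟨htp j, htyy j, (htF j).trans hFc⟩) col (fib_cmod K m hm hmK) bad hbad
  have hqn : q ∣ n := dvd_of_primes q n hqsf fun p hp hpq => hn5 p hp (Nat.le_of_dvd hq0 hpq)
  refine ⟨n, hn1, hn2, hn3, t, col, htinj, htP, ⟨G, hG1, hG2⟩, ?_⟩
  intro s hs hp
  obtain ⟨j, hj⟩ := hn4 s (hs.trans hFc) hp
  refine ⟨?_, j, hj⟩
  rw [hj]
  have h1 : n ≡ 0 [MOD q] := (Nat.modEq_zero_iff_dvd).2 hqn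
  have h2 := h1.add (hta j)
  rwa [zero_add] at h2

end Pool.Agent.W142.ES
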