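import Mathlib
import Pool.Agent.H362R2.RQ.Shapes
import Pool.Agent.W142.ES.Line
import Pool.Agent.W142.ES.Place

set_option autoImplicit false

/-! ES: hierarchical systems of shapes; one of them is realised exactly. -/

open Finset Filter

namespace Pool.Agent.W142.ES

open Pool.Agent.H256R2.SC (ff)
open Pool.Agent.H312R2.RG.C3 (ff_tendsto ff_small)
open Pool.Agent.H362R2.RQ (StRQ ev_bad)

/-- the primes within distance `r` of `n` are at most `K`, they are `≡ a (mod q)` and within `e` of the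
points `n + y`, `y ∈ T`, and each of these points has `m` of them within `e` -/
def Sees (q a m K : ℕ) (r e : ℝ) (T : Set ℝ) (n : ℕ) : Prop :=
  (∀ p : ℕ, p.Prime → |(p : ℝ) - n| ≤ r → p ≡ a [MOD q] ∧ ∃ y ∈ T, |(p : ℝ) - n - y| ≤ e) ∧
  (∀ y ∈ T, m ≤ {p : ℕ | p.Prime ∧ p ≡ a [MOD q] ∧ |(p : ℝ) - n - y| ≤ e}.ncard) ∧
  {p : ℕ | p.Prime ∧ |(p : ℝ) - n| ≤ r}.ncard ≤ K

theorem ev_badN (N : ℕ) (c : ℝ) (hc : 0 < c) : ∀ᶠ X : ℝ in atTop,
    (N : ℝ) * (X ^ (7 / 8 : ℝ) * (c * ff X + 1)) ≤ X ^ (9 / 10 : ℝ) := by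
  filter_upwards [ev_bad ((N + 1 : ℝ) * (c + 1)) (by positivity), ff_tendsto.eventually_ge_atTop 1,
    eventually_ge_atTop (0 : ℝ)] with X h1 h2 h3
  refine le_trans ?_ h1
  have hr : 0 ≤ X ^ (7 / 8 : ℝ) := Real.rpow_nonneg h3 _
  calc (N : ℝ) * (X ^ (7 / 8 : ℝ) * (c * ff X + 1)) = X ^ (7 / 8 : ℝ) * ((N : ℝ) * (c * ff X + 1)) := by ring
    _ ≤ X ^ (7 / 8 : ℝ) * ((N + 1 : ℝ) * (c + 1) * ff X + 1) := by
      apply mul_le_mul_of_nonneg_left _ hr
      have hN : (0 : ℝ) ≤ N := Nat.cast_nonneg N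
      have e1 : (N : ℝ) * (c * ff X + 1) ≤ (N : ℝ) * (c * ff X + ff X) := by gcongr
      have e2 : (N : ℝ) * (c * ff X + ff X) = (N : ℝ) * (c + 1) * ff X := by ring
      have e3 : (N : ℝ) * (c + 1) * ff X ≤ (N + 1 : ℝ) * (c + 1) * ff X := by
        apply mul_le_mul_of_nonneg_right _ (by linarith)
        apply mul_le_mul_of_nonneg_right _ (by linarith)
        linarith
      linarith

/-- many copies of an element are hit -/
theorem many_copies {W : Type} [Fintype W] [DecidableEq W] (M m : ℕ) (η : ℝ) (T : ℕ)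
    (e : W × Fin M ≃ Fin T) (hM : (m : ℝ) ≤ η / 2 * M) (hM0 : 0 < M)
    (D : Finset (Fin T)) (hD : η * T ≤ D.card) :
    η / 2 * (Fintype.card W : ℝ) ≤
      ((univ.filter (fun w : W => m ≤ (univ.filter (fun c : Fin M => e (w, c) ∈ D)).card)).card : ℝ) := by
  classical
  set hh : W → ℕ := fun w => (univ.filter (fun c : Fin M => e (w, c) ∈ D)).card with hhh
  set A := univ.filter (fun w : W => m ≤ hh w) with hA
  have hT : (T : ℝ) = Fintype.card W * M := by
    have h1 := Fintype.card_congr e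
    rw [Fintype.card_prod, Fintype.card_fin, Fintype.card_fin] at h1
    rw [← h1]
    push_cast
    ring
  have h1 : D.card = ∑ w, hh w := by
    have h2 : D.card = (univ.filter (fun x : W × Fin M => e x ∈ D)).card := by
      rw [← Finset.card_map e.toEmbedding]
      congr 1
      ext d
      simp only [Finset.mem_map, mem_filter, mem_univ, true_and, Equiv.coe_toEmbedding]
      constructor
      · intro hd
        exact ⟨e.symm d, by rwa [Equiv.apply_symm_apply], Equiv.apply_symm_apply e d⟩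
      · rintro ⟨x, hx, rfl⟩
        exact hx
    rw [h2, card_eq_sum_card_fiberwise (f := Prod.fst) (t := univ) (fun _ _ => by simp)]
    apply sum_congr rfl
    intro w _
    simp only [hhh]
    apply Finset.card_bij (fun x _ => x.2)
    · intro x hx
      simp only [mem_filter, mem_univ, true_and] at hx ⊢
      rw [← hx.2]
      exact hx.1
    · intro x hx x' hx' h
      simp only [mem_filter, mem_univ, true_and] at hx hx'
      exact Prod.ext (hx.2.trans hx'.2.symm) h
    · intro c hc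
      simp only [mem_filter, mem_univ, true_and] at hc
      exact ⟨(w, c), by simp only [mem_filter, mem_univ, true_and]; exact ⟨hc, trivial⟩, rfl⟩
  have h2 : ∀ w, (hh w : ℝ) ≤ (if w ∈ A then (M : ℝ) else 0) + m := by
    intro w
    by_cases hw : w ∈ A
    · rw [if_pos hw]
      have h3 : hh w ≤ M := by
        have := Finset.card_le_univ (univ.filter (fun c : Fin M => e (w, c) ∈ D))
        rwa [Fintype.card_fin] at this
      have h4 : (hh w : ℝ) ≤ M := by exact_mod_cast h3
      have h5 : (0 : ℝ) ≤ m := Nat.cast_nonneg m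
      linarith
    · rw [if_neg hw]
      have h3 : ¬ m ≤ hh w := fun h => hw (mem_filter.2 ⟨mem_univ _, h⟩)
      have h4 : (hh w : ℝ) ≤ m := by exact_mod_cast (not_le.1 h3).le
      linarith
  have h3 : (D.card : ℝ) ≤ A.card * M + Fintype.card W * m := by
    rw [h1]
    push_cast
    calc ∑ w, (hh w : ℝ) ≤ ∑ w, ((if w ∈ A then (M : ℝ) else 0) + m) := sum_le_sum fun w _ => h2 w
      _ = A.card * M + Fintype.card W * m := by
        rw [sum_add_distrib, sum_const, ← sum_filter, sum_const, card_univ]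
        simp
  have hMr : (0 : ℝ) < M := by exact_mod_cast hM0
  have hW : (0 : ℝ) ≤ Fintype.card W := Nat.cast_nonneg _
  have h4 : η * (Fintype.card W * M) ≤ A.card * M + Fintype.card W * (η / 2 * M) := by
    rw [← hT]
    refine hD.trans (h3.trans ?_)
    have := mul_le_mul_of_nonneg_left hM hW
    linarith
  have h5 : η / 2 * (Fintype.card W : ℝ) * M ≤ A.card * M := by
    have e1 : η * (Fintype.card W * M) = η / 2 * (Fintype.card W : ℝ) * M + Fintype.card W * (η / 2 * M) := by ring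
    linarith
  exact le_of_mul_le_mul_right h5 hMr

/-- the core theorem: of `N` levels one is realised exactly -/
theorem core (hst : StRQ) (α : Type) [Fintype α] [Nonempty α] (m : ℕ) : ∃ N K : ℕ, 1 ≤ N ∧ ∃ c : ℝ, 0 < c ∧
    ∀ q a : ℕ, Squarefree q → a.Coprime q → ∀ᶠ X : ℝ in atTop, ∀ F τ : ℝ, Real.log X ≤ F → F ≤ c * ff X →
    F / (Real.log (Real.log X)) ^ (1 / 65 : ℝ) ≤ τ → τ ≤ F / 8 →
    ∀ (y : ℕ → α → ℝ) (s r e : ℕ → ℝ), (∀ i < N, ∀ b, |y i b| + s (i + 1) ≤ s i) → (∀ i ≤ N, 0 ≤ s i) →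
    s 0 ≤ F / 16 → (∀ i < N, r i ≤ F / 16) →
    (∀ i j, i < j → j < N → ∀ b b', y i b ≠ y i b' → r j + τ + 1 + 2 * s (i + 1) < |y i b - y i b'|) →
    (∀ i < N, s (i + 1) + τ + 1 ≤ e i) →
    ∃ i < N, X ^ (7 / 8 : ℝ) ≤
      ({n : ℕ | X < n ∧ (n : ℝ) ≤ 4 * X ∧ Sees q a m K (r i) (e i) (Set.range (y i)) n}.ncard : ℝ) := by
  classical
  obtain ⟨η, hη, hplace⟩ := place hst
  obtain ⟨N, hN1, hN⟩ := dhj_card α (η / 2) (by positivity)
  obtain ⟨M, hM⟩ : ∃ M : ℕ, M = ⌈2 * (m : ℝ) / η⌉₊ + 1 := ⟨_, rfl⟩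
  have hM0 : 0 < M := by omega
  have hMm : (m : ℝ) ≤ η / 2 * M := by
    have h1 : 2 * (m : ℝ) / η ≤ M := by
      rw [hM]; push_cast
      have := Nat.le_ceil (2 * (m : ℝ) / η)
      linarith
    rw [div_le_iff₀ hη] at h1
    linarith
  obtain ⟨T, hT⟩ : ∃ T : ℕ, T = Fintype.card ((Fin N → α) × Fin M) := ⟨_, rfl⟩
  have hT1 : 1 ≤ T := by
    rw [hT]
    haveI : Nonempty (Fin M) := ⟨⟨0, hM0⟩⟩
    exact Fintype.card_pos
  set eq : (Fin N → α) × Fin M ≃ Fin T := Fintype.equivFinOfCardEq hT.symm with heq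
  obtain ⟨K, hK1, c, hc, hpl⟩ := hplace T hT1
  refine ⟨N, K, hN1, c, hc, fun q a hq ha => ?_⟩
  filter_upwards [hpl q a hq ha, ev_badN N c hc, ff_small (c + 1) (by linarith),
    Real.tendsto_log_atTop.eventually_ge_atTop 80, eventually_ge_atTop (1 : ℝ),
    ff_tendsto.eventually_gt_atTop 0] with X hX hbadX hsmall hlX hX1 hffpos
  intro F τ hlF hFc hτ1 hτ2 y s r e hs hs0 hsF hrF hsep he
  have hF80 : 80 ≤ F := hlX.trans hlF
  have hFpos : 0 < F := by linarith
  have hFX : F ≤ X := by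
    have : (c + 1) * ff X = c * ff X + ff X := by ring
    linarith
  have hτ0 : 0 ≤ τ := by
    refine le_trans ?_ hτ1
    have hLL : 0 ≤ Real.log (Real.log X) := Real.log_nonneg (by linarith)
    exact div_nonneg hFpos.le (Real.rpow_nonneg hLL _)
  by_contra hcon
  push Not at hcon
  set Good : ℕ → Set ℕ := fun i => {n : ℕ | X < n ∧ (n : ℝ) ≤ 4 * X ∧
    Sees q a m K (r i) (e i) (Set.range (y i)) n} with hGood
  have hfinG : ∀ i, (Good i).Finite := by
    intro i
    apply (Set.finite_Iic ⌊4 * X⌋₊).subset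
    intro n hn
    rw [Set.mem_Iic]
    exact Nat.le_floor hn.2.1
  set G0 : ℕ → Finset ℕ := fun i => (hfinG i).toFinset with hG0
  have hG0card : ∀ i < N, ((G0 i).card : ℝ) < X ^ (7 / 8 : ℝ) := by
    intro i hi
    simp only [hG0]
    rw [← Set.ncard_eq_toFinset_card (Good i) (hfinG i)]
    exact hcon i hi
  set bad : Finset ℕ := (range N).biUnion (fun i => (G0 i).biUnion (fun g => Icc (g - ⌊F⌋₊) g)) with hbaddef
  have hbadcard : (bad.card : ℝ) ≤ X ^ (9 / 10 : ℝ) := by
    have h3 : ((⌊F⌋₊ + 1 : ℕ) : ℝ) ≤ c * ff X + 1 := by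
      push_cast
      have := Nat.floor_le hFpos.le
      linarith
    have h1 : ∀ i ∈ range N, ((((G0 i).biUnion (fun g => Icc (g - ⌊F⌋₊) g)).card : ℕ) : ℝ) ≤
        X ^ (7 / 8 : ℝ) * (c * ff X + 1) := by
      intro i hi
      have h2 : ((G0 i).biUnion (fun g => Icc (g - ⌊F⌋₊) g)).card ≤ (G0 i).card * (⌊F⌋₊ + 1) := by
        refine Finset.card_biUnion_le.trans ?_
        have h2 : ∀ g ∈ G0 i, (Icc (g - ⌊F⌋₊) g).card ≤ ⌊F⌋₊ + 1 := by
          intro g _
          rw [Nat.card_Icc]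
          omega
        exact (Finset.sum_le_card_nsmul _ _ _ h2).trans (le_of_eq (by rw [smul_eq_mul]))
      calc ((((G0 i).biUnion (fun g => Icc (g - ⌊F⌋₊) g)).card : ℕ) : ℝ) ≤
            (((G0 i).card * (⌊F⌋₊ + 1) : ℕ) : ℝ) := by exact_mod_cast h2
        _ = ((G0 i).card : ℝ) * ((⌊F⌋₊ + 1 : ℕ) : ℝ) := by push_cast; ring
        _ ≤ X ^ (7 / 8 : ℝ) * (c * ff X + 1) :=
          mul_le_mul (hG0card i (Finset.mem_range.1 hi)).le h3 (Nat.cast_nonneg _)
            (Real.rpow_nonneg (by linarith) _)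
    refine le_trans ?_ hbadX
    calc (bad.card : ℝ) ≤ ((∑ i ∈ range N, ((G0 i).biUnion (fun g => Icc (g - ⌊F⌋₊) g)).card : ℕ) : ℝ) := by
          exact_mod_cast Finset.card_biUnion_le
      _ ≤ ∑ i ∈ range N, X ^ (7 / 8 : ℝ) * (c * ff X + 1) := by
          push_cast
          exact Finset.sum_le_sum h1
      _ = (N : ℝ) * (X ^ (7 / 8 : ℝ) * (c * ff X + 1)) := by
          rw [Finset.sum_const, Finset.card_range, nsmul_eq_mul]
  -- positions
  have hposle : ∀ w : Fin N → α, |pos y w| ≤ F / 16 := fun w =>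
    (pos_le y s hs (hs0 N le_rfl) w).trans hsF
  set P : Fin T → ℝ := fun d => F / 2 + pos y (eq.symm d).1 with hP
  obtain ⟨n, hn1, hn2, hnbad, t, col, htinj, htP, ⟨D, hD1, hD2⟩, hex⟩ := hX F τ hlF hFc hτ1 hτ2 P (by
    intro d
    have h1 := abs_le.1 (hposle (eq.symm d).1)
    simp only [hP]
    constructor <;> linarith) bad hbadcard
  set A : Finset (Fin N → α) := univ.filter
    (fun w => m ≤ (univ.filter (fun c : Fin M => eq (w, c) ∈ D)).card) with hA
  have hAcard := many_copies M m η T eq hMm hM0 D hD1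
  rw [← hA] at hAcard
  obtain ⟨L, hL⟩ := hN A (by
    rw [Fintype.card_fun, Fintype.card_fin] at hAcard
    push_cast at hAcard
    exact hAcard)
  obtain ⟨j, hjN, z, hz0, hz1, hz2⟩ := line_core y s (fun i => r i + τ + 1) hs hs0
    (fun i j hij hj b b' hne => by
      have := hsep i j hij hj b b' hne
      linarith) L
  have hzF : |z| ≤ F / 16 := hz0.trans hsF
  have hz' := abs_le.1 hzF
  set v : ℕ := ⌊F / 2 + z⌋₊ with hv
  have hv1 : (v : ℝ) ≤ F / 2 + z := Nat.floor_le (by linarith)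
  have hv2 : F / 2 + z < v + 1 := Nat.lt_floor_add_one _
  have hvF : v ≤ ⌊F⌋₊ := Nat.floor_le_floor (by linarith)
  have htF : ∀ k, (t k : ℝ) ≤ F := by
    intro k
    have h1 := (abs_le.1 (htP k)).2
    have h2 := (abs_le.1 (hposle (eq.symm (col k)).1)).2
    simp only [hP] at h1
    linarith
  have hej := he j hjN
  have hmem : n + v ∈ Good j := by
    refine ⟨?_, ?_, ?_, ?_, ?_⟩
    · push_cast
      have : (0 : ℝ) ≤ v := Nat.cast_nonneg _
      linarith
    · push_cast
      linarith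
    · intro p hp hpn
      push_cast at hpn
      have hpn' := abs_le.1 hpn
      have hrj := hrF j hjN
      have hpge : (n : ℝ) ≤ p := by linarith
      obtain ⟨k0, rfl⟩ : ∃ k0, p = n + k0 := ⟨p - n, by
        have : n ≤ p := by exact_mod_cast hpge
        omega⟩
      push_cast at hpn'
      have hk0F : (k0 : ℝ) ≤ F := by linarith
      obtain ⟨hpa, k, hk⟩ := hex k0 hk0F hp
      refine ⟨hpa, ?_⟩
      have h1 := abs_le.1 (htP k)
      simp only [hP] at h1
      rw [← hk] at h1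
      obtain ⟨b, hb⟩ := hz2 (eq.symm (col k)).1 (by
        rw [abs_le]
        constructor <;> linarith)
      refine ⟨y j b, ⟨b, rfl⟩, ?_⟩
      have h2 := abs_le.1 hb
      push_cast
      rw [abs_le]
      constructor <;> linarith
    · rintro _ ⟨b, rfl⟩
      have hLb := (mem_filter.1 (hL b)).2
      have hch : ∀ c : Fin M, eq (L b, c) ∈ D → ∃ k, col k = eq (L b, c) ∧ (n + t k).Prime :=
        fun c hc => hD2 _ hc
      set Cs := univ.filter (fun c : Fin M => eq (L b, c) ∈ D) with hCs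
      have hfin : {p : ℕ | p.Prime ∧ p ≡ a [MOD q] ∧ |(p : ℝ) - (n + v : ℕ) - y j b| ≤ e j}.Finite := by
        apply (Set.finite_Iic ⌊((n + v : ℕ) : ℝ) + y j b + e j⌋₊).subset
        rintro p ⟨_, _, hp⟩
        rw [Set.mem_Iic]
        apply Nat.le_floor
        have := (abs_le.1 hp).2
        linarith
      have hk : ∀ c : Fin M, ∃ k : Fin K, c ∈ Cs → col k = eq (L b, c) ∧ (n + t k).Prime := by
        intro c
        by_cases hc : c ∈ Cs
        · obtain ⟨k, hk⟩ := hch c (mem_filter.1 hc).2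
          exact ⟨k, fun _ => hk⟩
        · exact ⟨⟨0, hK1⟩, fun h => absurd h hc⟩
      choose k hk using hk
      refine hLb.trans ?_
      rw [Set.ncard_eq_toFinset_card _ hfin]
      apply Finset.card_le_card_of_injOn (fun c => n + t (k c))
      · intro c hc
        have hc' : c ∈ Cs := by exact_mod_cast hc
        obtain ⟨h1, h2⟩ := hk c hc'
        have h3 := hex (t (k c)) (htF _) h2
        simp only [Set.Finite.coe_toFinset, Set.mem_ofPred_eq]
        refine ⟨h2, h3.1, ?_⟩
        have h4 := abs_le.1 (htP (k c))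
        simp only [hP] at h4
        rw [h1, Equiv.symm_apply_apply] at h4
        have h5 := abs_le.1 (hz1 b)
        push_cast
        rw [abs_le]
        constructor <;> linarith
      · intro c hc c' hc' hcc
        have hc1 : c ∈ Cs := by exact_mod_cast hc
        have hc2 : c' ∈ Cs := by exact_mod_cast hc'
        have h1 : t (k c) = t (k c') := by
          have : n + t (k c) = n + t (k c') := hcc
          omega
        have h2 := htinj h1
        have h3 := (hk c hc1).1
        rw [h2, (hk c' hc2).1] at h3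
        have h4 := eq.injective h3
        exact (congrArg Prod.snd h4).symm
    · have hsub : {p : ℕ | p.Prime ∧ |(p : ℝ) - (n + v : ℕ)| ≤ r j} ⊆
          ((univ.image (fun k : Fin K => n + t k) : Finset ℕ) : Set ℕ) := by
        rintro p ⟨hp, hpn⟩
        push_cast at hpn
        have hpn' := abs_le.1 hpn
        have hrj := hrF j hjN
        have hpge : (n : ℝ) ≤ p := by linarith
        obtain ⟨k0, rfl⟩ : ∃ k0, p = n + k0 := ⟨p - n, by
          have : n ≤ p := by exact_mod_cast hpge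
          omega⟩
        push_cast at hpn'
        have hk0F : (k0 : ℝ) ≤ F := by linarith
        obtain ⟨hpa, k, hk⟩ := hex k0 hk0F hp
        rw [mem_coe, mem_image]
        exact ⟨k, mem_univ _, by rw [hk]⟩
      refine (Set.ncard_le_ncard hsub (Finset.finite_toSet _)).trans ?_
      rw [Set.ncard_coe_finset]
      refine Finset.card_image_le.trans ?_
      rw [card_univ, Fintype.card_fin]
  apply hnbad
  rw [hbaddef, Finset.mem_biUnion]
  refine ⟨j, Finset.mem_range.2 hjN, ?_⟩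
  rw [Finset.mem_biUnion]
  refine ⟨n + v, ?_, ?_⟩
  · simp only [hG0]
    rw [Set.Finite.mem_toFinset]
    exact hmem
  · rw [Finset.mem_Icc]
    omega

end Pool.Agent.W142.ES
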