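import Mathlib

set_option autoImplicit false

/-! ES: greedy covering of the bad scales; separated subsets. -/

open Finset Filter

namespace Pool.Agent.W142.ES

/-- a bounded set of positive reals without `ρ`-separated chains of length `N` is covered by `N` blocks -/
theorem cover (ρ : ℝ) (hρ : 0 < ρ) (hρ1 : ρ ≤ 1) (N : ℕ) : ∀ Bad : Set ℝ, (∀ h ∈ Bad, 0 < h) → BddAbove Bad →
    (¬ ∃ h : ℕ → ℝ, (∀ i < N, h i ∈ Bad) ∧ ∀ i, i + 1 < N → h (i + 1) ≤ ρ * h i) →
    ∃ E : Finset ℝ, E.card ≤ N ∧ ∀ h ∈ Bad, ∃ x ∈ E, ρ / 2 * x ≤ h ∧ h ≤ x := by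
  classical
  induction N with
  | zero =>
    intro Bad _ _ hno
    exact absurd ⟨fun _ => 0, fun i hi => absurd hi (Nat.not_lt_zero _), fun i hi => absurd hi (by omega)⟩ hno
  | succ N ih =>
    intro Bad hpos hbdd hno
    by_cases hne : Bad.Nonempty
    · set E1 := sSup Bad with hE1
      have hle : ∀ h ∈ Bad, h ≤ E1 := fun h hh => le_csSup hbdd hh
      obtain ⟨hx, hxB⟩ := hne
      have hE1pos : 0 < E1 := (hpos hx hxB).trans_le (hle hx hxB)
      obtain ⟨h0, hh0, hh0E⟩ := exists_lt_of_lt_csSup (⟨hx, hxB⟩ : Bad.Nonempty) (show E1 / 2 < sSup Bad by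
        rw [← hE1]; linarith)
      obtain ⟨E', hE'card, hE'⟩ := ih {h ∈ Bad | h ≤ ρ * h0} (fun h hh => hpos h hh.1)
        (hbdd.mono fun h hh => hh.1) (by
        rintro ⟨h, h1, h2⟩
        apply hno
        refine ⟨fun i => Nat.casesOn i h0 (fun j => h j), ?_, ?_⟩
        · intro i hi
          cases i with
          | zero => exact hh0
          | succ j => exact (h1 j (by omega)).1
        · intro i hi
          cases i with
          | zero => exact (h1 0 (by omega)).2
          | succ j => exact h2 j (by omega))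
      refine ⟨insert E1 E', (Finset.card_insert_le _ _).trans (by omega), ?_⟩
      intro h hh
      rcases le_or_gt h (ρ * h0) with h1 | h1
      · obtain ⟨x, hxE, hx2⟩ := hE' h ⟨hh, h1⟩
        exact ⟨x, Finset.mem_insert_of_mem hxE, hx2⟩
      · refine ⟨E1, Finset.mem_insert_self _ _, ?_, hle h hh⟩
        nlinarith
    · refine ⟨∅, by simp, fun h hh => absurd ⟨h, hh⟩ hne⟩

/-- a separated net of a finite set -/
theorem sep_net (S : Finset ℝ) (g : ℝ) (hg : 0 ≤ g) : ∃ T ⊆ S, (∀ x ∈ T, ∀ y ∈ T, x ≠ y → g < |x - y|) ∧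
    ∀ y ∈ S, ∃ x ∈ T, |y - x| ≤ g := by
  classical
  set P := S.powerset.filter (fun T => ∀ x ∈ T, ∀ y ∈ T, x ≠ y → g < |x - y|) with hP
  have hPne : P.Nonempty := ⟨∅, by rw [hP, mem_filter, mem_powerset]; exact ⟨empty_subset _, by simp⟩⟩
  obtain ⟨T, hT, hmax⟩ := Finset.exists_max_image P Finset.card hPne
  rw [hP, mem_filter, mem_powerset] at hT
  refine ⟨T, hT.1, hT.2, fun y hy => ?_⟩
  by_contra hcon
  push Not at hcon
  have hyT : y ∉ T := by
    intro h
    have := hcon y h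
    rw [sub_self, abs_zero] at this
    linarith
  have hins : insert y T ∈ P := by
    rw [hP, mem_filter, mem_powerset]
    refine ⟨Finset.insert_subset hy hT.1, ?_⟩
    intro x hx z hz hxz
    rw [mem_insert] at hx hz
    rcases hx with rfl | hx <;> rcases hz with rfl | hz
    · exact absurd rfl hxz
    · exact hcon z hz
    · rw [abs_sub_comm]; exact hcon x hx
    · exact hT.2 x hx z hz hxz
  have h1 := hmax _ hins
  rw [Finset.card_insert_of_notMem hyT] at h1
  omega

/-- a finite set as the range of a function, up to `g` -/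
theorem shape_fun (k : ℕ) (S : Finset ℝ) (hS : S.card ≤ k) (R g : ℝ) (hR : 1 ≤ R) (hg : 0 ≤ g)
    (hSR : ∀ y ∈ S, |y| ≤ R) : ∃ x : Fin (k + 1) → ℝ, (∀ b, |x b| ≤ 3 * R) ∧
      (∀ b b', x b ≠ x b' → g < |x b - x b'|) ∧ (∀ y ∈ S, ∃ b, |y - x b| ≤ g) ∧
      ∀ b, x b ∈ S ∨ x b = 3 * R := by
  classical
  obtain ⟨T, hTS, hTsep, hTnet⟩ := sep_net S g hg
  by_cases hne : T.Nonempty
  · obtain ⟨t0, ht0⟩ := hne
    set x : Fin (k + 1) → ℝ := fun b => if h : (b : ℕ) < T.card then
      ((T.equivFin.symm ⟨b, h⟩ : T) : ℝ) else t0 with hx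
    have hxT : ∀ b, x b ∈ T := by
      intro b
      simp only [hx]
      split_ifs with h
      · exact (T.equivFin.symm ⟨b, h⟩).2
      · exact ht0
    refine ⟨x, ?_, ?_, ?_, ?_⟩
    · intro b
      have := hSR _ (hTS (hxT b))
      linarith
    · intro b b' hbb
      exact hTsep _ (hxT b) _ (hxT b') hbb
    · intro y hy
      obtain ⟨z, hz, hyz⟩ := hTnet y hy
      have hlt : ((T.equivFin ⟨z, hz⟩ : Fin T.card) : ℕ) < T.card := (T.equivFin ⟨z, hz⟩).2
      have hTk : T.card ≤ k := (Finset.card_le_card hTS).trans hS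
      refine ⟨⟨(T.equivFin ⟨z, hz⟩ : Fin T.card), by omega⟩, ?_⟩
      have e1 : x ⟨(T.equivFin ⟨z, hz⟩ : Fin T.card), by omega⟩ = z := by
        simp only [hx, hlt, dif_pos, Fin.eta, Equiv.symm_apply_apply]
      rw [e1]
      exact hyz
    · intro b
      exact Or.inl (hTS (hxT b))
  · have hSe : ∀ y, y ∉ S := by
      intro y hy
      obtain ⟨x, hx, _⟩ := hTnet y hy
      exact hne ⟨x, hx⟩
    refine ⟨fun _ => 3 * R, fun _ => ?_, fun b b' h => absurd rfl h, fun y hy => absurd hy (hSe y),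
      fun _ => Or.inr rfl⟩
    rw [abs_of_pos (by linarith)]

end Pool.Agent.W142.ES
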