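import Mathlib
import Pool.Agent.W142.ES.Core
import Pool.Agent.W142.ES.Cover

set_option autoImplicit false

/-! ES: at all but boundedly many blocks of scales every shape occurs exactly. -/

open Finset Filter

namespace Pool.Agent.W142.ES

open Pool.Agent.H256R2.SC (ff)
open Pool.Agent.H312R2.RG.C3 (ff_tendsto ff_small)
open Pool.Agent.H362R2.RQ (StRQ)

/-- the primes within distance `R H` of `n` are at most `K`, they are `≡ a (mod q)` and `(p - n)/H` is within
`δ` of `S`, and each point of `S` has `m` of them within `δ` -/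
def Looks (q a m K : ℕ) (R δ H : ℝ) (S : Set ℝ) (n : ℕ) : Prop :=
  (∀ p : ℕ, p.Prime → |(p : ℝ) - n| ≤ R * H → p ≡ a [MOD q] ∧ ∃ y ∈ S, |((p : ℝ) - n) / H - y| ≤ δ) ∧
  (∀ y ∈ S, m ≤ {p : ℕ | p.Prime ∧ p ≡ a [MOD q] ∧ |((p : ℝ) - n) / H - y| ≤ δ}.ncard) ∧
  {p : ℕ | p.Prime ∧ |(p : ℝ) - n| ≤ R * H}.ncard ≤ K

theorem scale_div (u H y e : ℝ) (hH : 0 < H) : |u / H - y| ≤ e ↔ |u - H * y| ≤ e * H := by
  have e1 : u / H - y = (u - H * y) / H := by field_simp
  rw [e1, abs_div, abs_of_pos hH, div_le_iff₀ hH]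

theorem looks_finite (q a : ℕ) (δ H y : ℝ) (hH : 0 < H) (n : ℕ) :
    {p : ℕ | p.Prime ∧ p ≡ a [MOD q] ∧ |((p : ℝ) - n) / H - y| ≤ δ}.Finite := by
  apply (Set.finite_Iic ⌊(n : ℝ) + H * y + δ * H⌋₊).subset
  rintro p ⟨_, _, hp⟩
  rw [scale_div _ _ _ _ hH] at hp
  rw [Set.mem_Iic]
  apply Nat.le_floor
  have := (abs_le.1 hp).2
  linarith

theorem looks_of_sees (q a m K B : ℕ) (R δ d H : ℝ) (hR : 1 ≤ R) (hd1 : d ≤ 1) (hd : d ≤ δ) (hd0 : 0 < d)
    (hH : 0 < H) (hKB : K ≤ B) (k : ℕ) (S : Finset ℝ) (x : Fin (k + 1) → ℝ)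
    (hx1 : ∀ y ∈ S, ∃ b, |y - x b| ≤ d / 2) (hx2 : ∀ b, x b ∈ S ∨ x b = 3 * R) (n : ℕ)
    (h : Sees q a m K (R * H) (d / 2 * H) (Set.range (fun b => H * x b)) n) :
    Looks q a m B R δ H (S : Set ℝ) n := by
  obtain ⟨h1, h2, h3⟩ := h
  refine ⟨?_, ?_, h3.trans hKB⟩
  · intro p hp hpn
    obtain ⟨hpa, _, ⟨b, rfl⟩, hb⟩ := h1 p hp hpn
    refine ⟨hpa, ?_⟩
    have hb' := abs_le.1 hb
    simp only at hb'
    rcases hx2 b with h4 | h4
    · refine ⟨x b, h4, ?_⟩
      rw [scale_div _ _ _ _ hH]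
      refine hb.trans ?_
      apply mul_le_mul_of_nonneg_right _ hH.le
      linarith
    · exfalso
      rw [h4] at hb'
      have h5 := (abs_le.1 hpn).2
      have h6 : H ≤ R * H := by nlinarith
      have h7 : d / 2 * H ≤ 1 * H := by
        apply mul_le_mul_of_nonneg_right _ hH.le
        linarith
      have h8 : H * (3 * R) = 3 * (R * H) := by ring
      linarith [hb'.1]
  · intro y hy
    obtain ⟨b, hb⟩ := hx1 y (by exact_mod_cast hy)
    refine (h2 (H * x b) ⟨b, rfl⟩).trans ?_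
    apply Set.ncard_le_ncard _ (looks_finite q a δ H y hH n)
    rintro p ⟨hp, hpa, hpb⟩
    refine ⟨hp, hpa, ?_⟩
    rw [scale_div _ _ _ _ hH]
    have h4 := abs_le.1 hpb
    have h5 := abs_le.1 hb
    have h6 : d / 2 * H + H * (d / 2) ≤ δ * H := by
      have : d * H ≤ δ * H := mul_le_mul_of_nonneg_right hd hH.le
      linarith
    have h7 : H * (y - x b) ≤ H * (d / 2) := mul_le_mul_of_nonneg_left h5.2 hH.le
    have h8 : H * (-(d / 2)) ≤ H * (y - x b) := mul_le_mul_of_nonneg_left h5.1 hH.le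
    rw [abs_le]
    constructor <;> linarith

/-- growth facts for the ranges of scales -/
theorem ev_scales (c C : ℝ) : ∀ᶠ X : ℝ in atTop, 1 ≤ Real.log (Real.log X) ∧
    C ≤ (Real.log (Real.log X)) ^ (1 / 910 : ℝ) ∧
    c * ff X < ((Real.log (Real.log X)) ^ (1 / 70 : ℝ)) ^ 210 * Real.log X := by
  have h2 : Tendsto (fun X : ℝ => Real.log (Real.log X)) atTop atTop :=
    Real.tendsto_log_atTop.comp Real.tendsto_log_atTop
  have h3 : Tendsto (fun X : ℝ => Real.log (Real.log (Real.log X))) atTop atTop :=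
    Real.tendsto_log_atTop.comp h2
  filter_upwards [Real.tendsto_log_atTop.eventually_ge_atTop 1, h2.eventually_ge_atTop 1,
    h2.eventually_gt_atTop |c|,
    ((tendsto_rpow_atTop (by norm_num : (0 : ℝ) < 1 / 910)).comp h2).eventually_ge_atTop C,
    h3.eventually_ge_atTop 1] with X a1 a2 a3 a4 a5
  refine ⟨a2, a4, ?_⟩
  set l1 := Real.log X with hl1
  set l2 := Real.log l1 with hl2
  set l3 := Real.log l2 with hl3
  have e1 : (l2 ^ (1 / 70 : ℝ)) ^ 210 = l2 ^ 3 := by
    rw [← Real.rpow_natCast, ← Real.rpow_mul (by linarith), ← Real.rpow_natCast]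
    norm_num
  rw [e1]
  have h4 : Real.log l3 ≤ l3 ^ 2 := by
    have h5 := Real.log_le_self (show 0 ≤ l3 by linarith)
    nlinarith
  have h5 : 0 ≤ Real.log l3 := Real.log_nonneg a5
  have h6 : 0 ≤ ff X ∧ ff X ≤ l1 * l2 ^ 2 := by
    have e2 : ff X = l1 * l2 ^ 2 * Real.log l3 / l3 ^ 2 := rfl
    rw [e2]
    constructor
    · positivity
    · rw [div_le_iff₀ (by positivity)]
      exact mul_le_mul_of_nonneg_left h4 (by positivity)
  calc c * ff X ≤ |c| * ff X := mul_le_mul_of_nonneg_right (le_abs_self c) h6.1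
    _ ≤ |c| * (l1 * l2 ^ 2) := mul_le_mul_of_nonneg_left h6.2 (abs_nonneg c)
    _ < l2 * (l1 * l2 ^ 2) := mul_lt_mul_of_pos_right a3 (by positivity)
    _ = _ := by ring

/-- at all but boundedly many blocks of scales every shape occurs exactly -/
theorem exact_scales (hst : StRQ) (k m : ℕ) : ∃ B : ℕ, ∃ c : ℝ, 0 < c ∧ ∀ R δ : ℝ, 1 ≤ R → 0 < δ →
    ∃ ρ : ℝ, 0 < ρ ∧ ∀ q a : ℕ, Squarefree q → a.Coprime q → ∀ᶠ X : ℝ in atTop,
    ∃ E : Finset ℝ, E.card ≤ B ∧ ∀ H : ℝ, Real.log X ≤ H → R * H ≤ c * ff X →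
    (∀ x ∈ E, H < ρ * x ∨ x < H) → ∀ S : Finset ℝ, S.card ≤ k → (∀ y ∈ S, |y| ≤ R) →
    X ^ (7 / 8 : ℝ) ≤
      ({n : ℕ | X < n ∧ (n : ℝ) ≤ 4 * X ∧ Looks q a m B R δ H (S : Set ℝ) n}.ncard : ℝ) := by
  classical
  obtain ⟨N, K, hN1, c0, hc0, hcore⟩ := core hst (Fin (k + 1)) m
  obtain ⟨B, hB⟩ : ∃ B, B = max K (210 * N) := ⟨_, rfl⟩
  have hKB : K ≤ B := by rw [hB]; exact le_max_left _ _
  have hNB : 210 * N ≤ B := by rw [hB]; exact le_max_right _ _
  refine ⟨B, c0 / 64, by positivity, fun R δ hR hδ => ?_⟩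
  obtain ⟨d, hd⟩ : ∃ d, d = min δ 1 := ⟨_, rfl⟩
  have hdδ : d ≤ δ := by rw [hd]; exact min_le_left _ _
  have hd1 : d ≤ 1 := by rw [hd]; exact min_le_right _ _
  have hd0 : 0 < d := by rw [hd]; exact lt_min hδ one_pos
  have hR0 : 0 < R := by linarith
  obtain ⟨ρ, hρ⟩ : ∃ ρ, ρ = d / (40 * R) := ⟨_, rfl⟩
  have hρ0 : 0 < ρ := by rw [hρ]; positivity
  have hRρ : R * ρ = d / 40 := by rw [hρ]; field_simp
  have hρ40 : ρ ≤ 1 / 40 := by
    have : 1 * ρ ≤ R * ρ := mul_le_mul_of_nonneg_right hR hρ0.le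
    linarith
  refine ⟨ρ / 2, by positivity, fun q a hq ha => ?_⟩
  filter_upwards [hcore q a hq ha, ev_scales (c0 / 64) (64 * R / ρ),
    Real.tendsto_log_atTop.eventually_ge_atTop (1 / ρ), Real.tendsto_log_atTop.eventually_ge_atTop 1]
    with X hX hsc hlX hl1
  obtain ⟨hLL1, hLLC, hLLf⟩ := hsc
  set LL := Real.log (Real.log X) with hLL
  have hLL0 : 0 < LL := by linarith
  set lam : ℝ := LL ^ (1 / 70 : ℝ) with hlam
  have hlam0 : 0 < lam := Real.rpow_pos_of_pos hLL0 _
  have hlX0 : 0 < Real.log X := by linarith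
  set Bad : Set ℝ := {H | Real.log X ≤ H ∧ R * H ≤ c0 / 64 * ff X ∧ ∃ S : Finset ℝ, S.card ≤ k ∧
    (∀ y ∈ S, |y| ≤ R) ∧
    ({n : ℕ | X < n ∧ (n : ℝ) ≤ 4 * X ∧ Looks q a m B R δ H (S : Set ℝ) n}.ncard : ℝ) < X ^ (7 / 8 : ℝ)} with hBad
  have hchain : ∀ j : ℕ, ¬ ∃ h : ℕ → ℝ,
      (∀ i < N, h i ∈ Bad ∩ Set.Ico (lam ^ j * Real.log X) (lam ^ (j + 1) * Real.log X)) ∧
      ∀ i, i + 1 < N → h (i + 1) ≤ ρ * h i := by
    rintro j ⟨h, hh1, hh2⟩
    have hlog : ∀ i < N, Real.log X ≤ h i := fun i hi => (hh1 i hi).1.1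
    have hpos : ∀ i < N, 0 < h i := fun i hi => hlX0.trans_le (hlog i hi)
    have hone : ∀ i < N, 1 ≤ ρ * h i := by
      intro i hi
      have h1 : 1 / ρ ≤ h i := hlX.trans (hlog i hi)
      rw [div_le_iff₀ hρ0] at h1
      linarith
    have hdec : ∀ i j, i ≤ j → j < N → h j ≤ h i := by
      intro i j hij
      induction j, hij using Nat.le_induction with
      | base => intro _; exact le_rfl
      | succ j hij ih =>
        intro hj
        have h1 := ih (by omega)
        have h2 := hh2 j hj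
        have h3 := hpos j (by omega)
        have h4 : ρ * h j ≤ 1 * h j := mul_le_mul_of_nonneg_right (by linarith) h3.le
        linarith
    have hstep : ∀ i j, i < j → j < N → h j ≤ ρ * h i := by
      intro i j hij hj
      exact (hdec (i + 1) j hij hj).trans (hh2 i (by omega))
    have hSe : ∀ i, ∃ S : Finset ℝ, i < N → (S.card ≤ k ∧ (∀ y ∈ S, |y| ≤ R) ∧
        ({n : ℕ | X < n ∧ (n : ℝ) ≤ 4 * X ∧ Looks q a m B R δ (h i) (S : Set ℝ) n}.ncard : ℝ) <
          X ^ (7 / 8 : ℝ)) := by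
      intro i
      by_cases hi : i < N
      · obtain ⟨S, hS⟩ := (hh1 i hi).1.2.2
        exact ⟨S, fun _ => hS⟩
      · exact ⟨∅, fun h => absurd h hi⟩
    choose S hS using hSe
    have hxe : ∀ i, ∃ x : Fin (k + 1) → ℝ, i < N → ((∀ b, |x b| ≤ 3 * R) ∧
        (∀ b b', x b ≠ x b' → d / 2 < |x b - x b'|) ∧ (∀ y ∈ S i, ∃ b, |y - x b| ≤ d / 2) ∧
        ∀ b, x b ∈ S i ∨ x b = 3 * R) := by
      intro i
      by_cases hi : i < N
      · obtain ⟨x, hx⟩ := shape_fun k (S i) (hS i hi).1 R (d / 2) hR (by positivity) (hS i hi).2.1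
        exact ⟨x, fun _ => hx⟩
      · exact ⟨fun _ => 0, fun h => absurd h hi⟩
    choose x hx using hxe
    have hN0 : N - 1 < N := by omega
    have h00 := hpos 0 (by omega)
    have hs1 : ∀ i < N, (if i + 1 < N then 4 * R * h (i + 1) else 0) ≤ 4 * (R * ρ) * h i := by
      intro i hi
      have h3 := hpos i hi
      split_ifs with h4
      · have h5 := hh2 i h4
        calc 4 * R * h (i + 1) ≤ 4 * R * (ρ * h i) := mul_le_mul_of_nonneg_left h5 (by positivity)
          _ = _ := by ring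
      · positivity
    obtain ⟨i, hiN, hi⟩ := hX (64 * R * h 0) (ρ * h (N - 1)) (by
      have h1 := hlog 0 (by omega)
      have h2 : 1 * h 0 ≤ 64 * R * h 0 := mul_le_mul_of_nonneg_right (by linarith) h00.le
      linarith) (by
      have h1 := (hh1 0 (by omega)).1.2.1
      linarith) (by
      have h1 := (hh1 0 (by omega)).2.2
      have h2 := (hh1 (N - 1) hN0).2.1
      have h3 : h 0 ≤ lam * h (N - 1) := by
        calc h 0 ≤ lam ^ (j + 1) * Real.log X := h1.le
          _ = lam * (lam ^ j * Real.log X) := by ring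
          _ ≤ lam * h (N - 1) := mul_le_mul_of_nonneg_left h2 hlam0.le
      have e1 : LL ^ (1 / 65 : ℝ) = lam * LL ^ (1 / 910 : ℝ) := by
        rw [hlam, ← Real.rpow_add hLL0]; norm_num
      have h4 : 0 < LL ^ (1 / 910 : ℝ) := Real.rpow_pos_of_pos hLL0 _
      rw [e1, div_le_iff₀ (by positivity)]
      have h5 : 64 * R ≤ ρ * LL ^ (1 / 910 : ℝ) := by
        rw [div_le_iff₀ hρ0] at hLLC
        linarith
      have h6 : 0 ≤ lam * h (N - 1) := by
        have := hpos (N - 1) hN0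
        positivity
      calc 64 * R * h 0 ≤ 64 * R * (lam * h (N - 1)) := mul_le_mul_of_nonneg_left h3 (by positivity)
        _ ≤ (ρ * LL ^ (1 / 910 : ℝ)) * (lam * h (N - 1)) := mul_le_mul_of_nonneg_right h5 h6
        _ = _ := by ring) (by
      have h1 := hdec 0 (N - 1) (Nat.zero_le _) hN0
      have h2 := hpos (N - 1) hN0
      have h3 : ρ * h (N - 1) ≤ 1 * h (N - 1) := mul_le_mul_of_nonneg_right (by linarith) h2.le
      have h4 : 1 * h 0 ≤ R * h 0 := mul_le_mul_of_nonneg_right hR h00.le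
      linarith)
      (fun i b => h i * x i b) (fun i => if i < N then 4 * R * h i else 0) (fun i => R * h i)
      (fun i => d / 2 * h i) (by
      intro i hi b
      have h1 := (hx i hi).1 b
      have h2 := hpos i hi
      have h3 := hs1 i hi
      simp only [hi, if_true]
      rw [abs_mul, abs_of_pos h2]
      have h4 : h i * |x i b| ≤ h i * (3 * R) := mul_le_mul_of_nonneg_left h1 h2.le
      have h5 : 4 * (R * ρ) * h i ≤ 1 * (R * h i) := by
        calc 4 * (R * ρ) * h i = (4 * ρ) * (R * h i) := by ring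
          _ ≤ 1 * (R * h i) := mul_le_mul_of_nonneg_right (by linarith) (by positivity)
      linarith) (by
      intro i _
      split_ifs with h1
      · have := hpos i h1
        positivity
      · exact le_rfl) (by
      simp only [show 0 < N by omega, if_true]
      linarith) (by
      intro i hi
      have h1 := hdec 0 i (Nat.zero_le _) hi
      have h2 : R * h i ≤ R * h 0 := mul_le_mul_of_nonneg_left h1 hR0.le
      have h3 : 0 < R * h 0 := by positivity
      linarith) (by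
      intro i j' hij hj' b b' hne
      have hi : i < N := hij.trans hj'
      have hne' : x i b ≠ x i b' := fun h => hne (by rw [h])
      have h1 := (hx i hi).2.1 b b' hne'
      have h2 := hpos i hi
      rw [← mul_sub, abs_mul, abs_of_pos h2]
      have h3 : h i * (d / 2) < h i * |x i b - x i b'| := mul_lt_mul_of_pos_left h1 h2
      have h4 := hs1 i hi
      have h5 : R * h j' ≤ R * (ρ * h i) := mul_le_mul_of_nonneg_left (hstep i j' hij hj') hR0.le
      have h6 : ρ * h (N - 1) ≤ ρ * h i := mul_le_mul_of_nonneg_left (hdec i (N - 1) (by omega) hN0) hρ0.le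
      have h7 := hone i hi
      have h8 : ρ * h i ≤ (R * ρ) * h i := by
        calc ρ * h i = 1 * (ρ * h i) := by ring
          _ ≤ R * (ρ * h i) := mul_le_mul_of_nonneg_right hR (by positivity)
          _ = _ := by ring
      have h9 : R * (ρ * h i) = (R * ρ) * h i := by ring
      have h10 : (R * ρ) * h i = d * h i / 40 := by rw [hRρ]; ring
      have h11 : 0 < d * h i := by positivity
      have h12 : h i * (d / 2) = d * h i / 2 := by ring
      have h13 : 4 * (R * ρ) * h i = 4 * ((R * ρ) * h i) := by ring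
      rw [h13] at h4
      linarith) (by
      intro i hi
      have h2 := hpos i hi
      have h4 := hs1 i hi
      have h6 : ρ * h (N - 1) ≤ ρ * h i := mul_le_mul_of_nonneg_left (hdec i (N - 1) (by omega) hN0) hρ0.le
      have h7 := hone i hi
      have h8 : ρ * h i ≤ (R * ρ) * h i := by
        calc ρ * h i = 1 * (ρ * h i) := by ring
          _ ≤ R * (ρ * h i) := mul_le_mul_of_nonneg_right hR (by positivity)
          _ = _ := by ring
      have h10 : (R * ρ) * h i = d * h i / 40 := by rw [hRρ]; ring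
      have h11 : 0 < d * h i := by positivity
      have h12 : d / 2 * h i = d * h i / 2 := by ring
      have h13 : 4 * (R * ρ) * h i = 4 * ((R * ρ) * h i) := by ring
      rw [h13] at h4
      linarith)
    have hSi := hS i hiN
    have hxi := hx i hiN
    refine absurd (hi.trans ?_) (not_le.2 hSi.2.2)
    have hfin : {n : ℕ | X < n ∧ (n : ℝ) ≤ 4 * X ∧ Looks q a m B R δ (h i) (S i : Set ℝ) n}.Finite := by
      apply (Set.finite_Iic ⌊4 * X⌋₊).subset
      intro n hn
      rw [Set.mem_Iic]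
      exact Nat.le_floor hn.2.1
    have hsub : {n : ℕ | X < n ∧ (n : ℝ) ≤ 4 * X ∧ Sees q a m K (R * h i) (d / 2 * h i)
        (Set.range (fun b => h i * x i b)) n} ⊆
        {n : ℕ | X < n ∧ (n : ℝ) ≤ 4 * X ∧ Looks q a m B R δ (h i) (S i : Set ℝ) n} := fun n hn =>
      ⟨hn.1, hn.2.1, looks_of_sees q a m K B R δ d (h i) hR hd1 hdδ hd0 (hpos i hiN) hKB k (S i) (x i)
        hxi.2.2.1 hxi.2.2.2 n hn.2.2⟩
    exact_mod_cast Set.ncard_le_ncard hsub hfin
  have hcov : ∀ j : ℕ, ∃ E : Finset ℝ, E.card ≤ N ∧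
      ∀ H ∈ Bad ∩ Set.Ico (lam ^ j * Real.log X) (lam ^ (j + 1) * Real.log X),
        ∃ x ∈ E, ρ / 2 * x ≤ H ∧ H ≤ x := by
    intro j
    apply cover ρ hρ0 (by linarith) N _ _ _ (hchain j)
    · intro H hH
      exact hlX0.trans_le hH.1.1
    · exact ⟨lam ^ (j + 1) * Real.log X, fun H hH => hH.2.2.le⟩
  choose E hE1 hE2 using hcov
  refine ⟨(range 210).biUnion E, ?_, ?_⟩
  · refine (Finset.card_biUnion_le.trans (Finset.sum_le_card_nsmul _ _ N fun j _ => hE1 j)).trans ?_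
    rw [card_range, smul_eq_mul]
    exact hNB
  · intro H hH1 hH2 hHE S hSk hSR
    by_contra hlt
    push Not at hlt
    have hHB : H ∈ Bad := ⟨hH1, hH2, S, hSk, hSR, hlt⟩
    have hH0 : 0 < H := hlX0.trans_le hH1
    have hHlt : H < lam ^ 210 * Real.log X := by
      have h1 : 1 * H ≤ R * H := mul_le_mul_of_nonneg_right hR hH0.le
      linarith
    have hex : ∃ j, H < lam ^ (j + 1) * Real.log X := ⟨209, hHlt⟩
    set j := Nat.find hex with hj
    have hj1 : H < lam ^ (j + 1) * Real.log X := Nat.find_spec hex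
    have hj2 : j ≤ 209 := Nat.find_min' hex hHlt
    have hj3 : lam ^ j * Real.log X ≤ H := by
      rcases Nat.eq_zero_or_pos j with h0 | h0
      · rw [h0, pow_zero, one_mul]
        exact hH1
      · have h1 := Nat.find_min hex (show j - 1 < Nat.find hex by rw [← hj]; omega)
        rw [not_lt, Nat.sub_add_cancel h0] at h1
        exact h1
    obtain ⟨x, hx, hx1, hx2⟩ := hE2 j H ⟨hHB, hj3, hj1⟩
    rcases hHE x (Finset.mem_biUnion.2 ⟨j, Finset.mem_range.2 (by omega), hx⟩) with h1 | h1 <;> linarith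

end Pool.Agent.W142.ES
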